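import Pool.Agent.Helper36.CV.StmtsO

set_option autoImplicit false

/-! # O1: the operator on `ℓ²(ℤ)` -/

namespace Pool.Agent.Helper36.CV

open Filter Topology

noncomputable section

theorem o1_mem {ι : Type} (u : ι → ℂ) : Memℓp u 2 ↔ Summable fun k => ‖u k‖ ^ 2 := by
  rw [memℓp_gen_iff (by norm_num)]
  simp

/-- permutation of the coordinates -/
def o1_perm {ι : Type} (e : ι ≃ ι) : lp (fun _ : ι => ℂ) 2 →ₗ[ℂ] lp (fun _ : ι => ℂ) 2 where
  toFun u := ⟨fun k => u (e k), (o1_mem _).mpr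
    (((o1_mem _).mp u.2).comp_injective e.injective)⟩
  map_add' u w := by
    ext k
    rfl
  map_smul' c u := by
    ext k
    rfl

theorem o1_perm_apply {ι : Type} (e : ι ≃ ι) (u : lp (fun _ : ι => ℂ) 2) (k : ι) :
    o1_perm e u k = u (e k) := rfl

theorem o1_perm_inner {ι : Type} (e : ι ≃ ι) (u w : lp (fun _ : ι => ℂ) 2) :
    inner ℂ (o1_perm e u) w = inner ℂ u (o1_perm e.symm w) := by
  rw [lp.inner_eq_tsum, lp.inner_eq_tsum]
  rw [← Equiv.tsum_eq e (fun i => inner ℂ (u i) (o1_perm e.symm w i))]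
  refine tsum_congr fun k => ?_
  rw [o1_perm_apply, o1_perm_apply, Equiv.symm_apply_apply]

/-- multiplication by a bounded real function -/
def o1_mul {ι : Type} (c : ι → ℝ) (C : ℝ) (hc : ∀ k, |c k| ≤ C) :
    lp (fun _ : ι => ℂ) 2 →ₗ[ℂ] lp (fun _ : ι => ℂ) 2 where
  toFun u := ⟨fun k => (c k : ℂ) * u k, (o1_mem _).mpr (by
    refine Summable.of_nonneg_of_le (fun k => by positivity) (fun k => ?_)
      (((o1_mem _).mp u.2).mul_left (C ^ 2))
    rw [norm_mul, mul_pow, Complex.norm_real, Real.norm_eq_abs]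
    exact mul_le_mul_of_nonneg_right (pow_le_pow_left₀ (abs_nonneg _) (hc k) 2) (by positivity))⟩
  map_add' u w := by
    ext k
    exact mul_add _ _ _
  map_smul' c u := by
    ext k
    exact mul_left_comm _ _ _

theorem o1_mul_apply {ι : Type} (c : ι → ℝ) (C : ℝ) (hc : ∀ k, |c k| ≤ C)
    (u : lp (fun _ : ι => ℂ) 2) (k : ι) : o1_mul c C hc u k = (c k : ℂ) * u k := rfl

theorem o1_mul_inner {ι : Type} (c : ι → ℝ) (C : ℝ) (hc : ∀ k, |c k| ≤ C)
    (u w : lp (fun _ : ι => ℂ) 2) :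
    inner ℂ (o1_mul c C hc u) w = inner ℂ u (o1_mul c C hc w) := by
  rw [lp.inner_eq_tsum, lp.inner_eq_tsum]
  refine tsum_congr fun k => ?_
  rw [o1_mul_apply, o1_mul_apply]
  simp only [RCLike.inner_apply, map_mul, Complex.conj_ofReal]
  ring

theorem o1_vv (k : ℤ) : |vv k| ≤ 1 := by
  unfold vv
  rw [Set.indicator_apply]
  split_ifs <;> simp

theorem st_O1 : ST_O1 := by
  intro l
  have hc : ∀ k : ℤ, |l * vv k| ≤ |l| := by
    intro k
    rw [abs_mul]
    exact mul_le_of_le_one_right (abs_nonneg _) (o1_vv k)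
  obtain ⟨T, hT⟩ : ∃ T : L2 →ₗ[ℂ] L2, T = o1_perm (Equiv.addRight (1 : ℤ)) +
    o1_perm (Equiv.addRight (1 : ℤ)).symm + o1_mul (fun k : ℤ => l * vv k) |l| hc := ⟨_, rfl⟩
  have hsym : T.IsSymmetric := by
    intro u w
    rw [hT]
    simp only [LinearMap.add_apply, inner_add_left, inner_add_right]
    rw [o1_perm_inner, o1_perm_inner, o1_mul_inner, Equiv.symm_symm]
    ring
  refine ⟨⟨T, hsym.continuous⟩, ?_, ?_⟩
  · rw [ContinuousLinearMap.isSelfAdjoint_iff_isSymmetric]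
    exact hsym
  · intro u k
    change T u k = _
    rw [hT]
    simp only [LinearMap.add_apply]
    change o1_perm (Equiv.addRight (1 : ℤ)) u k + o1_perm (Equiv.addRight (1 : ℤ)).symm u k +
      o1_mul (fun k : ℤ => l * vv k) |l| hc u k = _
    rw [o1_perm_apply, o1_perm_apply, o1_mul_apply]
    unfold hop
    simp [sub_eq_add_neg]

end

end Pool.Agent.Helper36.CV
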