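import Pool.Agent.Helper95.CV.Q10c

set_option autoImplicit false

/-! # Module Q10, part 5: numerical estimates -/

namespace Pool.Agent.Helper95.CV.Q10

open MeasureTheory Set Pool.Agent.Helper36.CV

open Complex (I)

theorem rp_le {ε a b : ℝ} (h0 : 0 < ε) (h1 : ε ≤ 1) (h : b ≤ a) : ε ^ a ≤ ε ^ b :=
  Real.rpow_le_rpow_of_exponent_ge h0 h1 h

theorem quarter {ε κ : ℝ} (h0 : 0 < ε) (hκ : 0 < κ) (h : ε ≤ κ ^ 4) : ε ^ (1 / 4 : ℝ) ≤ κ := by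
  have h1 : ε ^ (1 / 4 : ℝ) ≤ (κ ^ 4) ^ (1 / 4 : ℝ) := Real.rpow_le_rpow h0.le h (by norm_num)
  have h2 : (κ ^ 4) ^ (1 / 4 : ℝ) = κ := by
    rw [← Real.rpow_natCast, ← Real.rpow_mul hκ.le]
    norm_num
  rwa [h2] at h1

/-- the logarithm of a moderate ratio is harmless -/
theorem log_small {ε y : ℝ} (h0 : 0 < ε) (h1 : ε ≤ 1) (hy0 : 0 < y)
    (hy : y ≤ ε ^ (-(21 / 20) : ℝ)) : ε * Real.log y ≤ 2 * ε ^ (1 / 4 : ℝ) := by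
  have h2 : Real.log y ≤ y ^ (1 / 2 : ℝ) / (1 / 2) := Real.log_le_rpow_div hy0.le (by norm_num)
  have h3 : y ^ (1 / 2 : ℝ) ≤ (ε ^ (-(21 / 20) : ℝ)) ^ (1 / 2 : ℝ) :=
    Real.rpow_le_rpow hy0.le hy (by norm_num)
  have h4 : (ε ^ (-(21 / 20) : ℝ)) ^ (1 / 2 : ℝ) = ε ^ (-(21 / 40) : ℝ) := by
    rw [← Real.rpow_mul h0.le]
    norm_num
  rw [h4] at h3
  have h5 : ε * ε ^ (-(21 / 40) : ℝ) = ε ^ (19 / 40 : ℝ) := by
    conv_lhs => rw [← Real.rpow_one ε, ← Real.rpow_mul h0.le, one_mul, ← Real.rpow_add h0]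
    norm_num
  calc ε * Real.log y ≤ ε * (ε ^ (-(21 / 40) : ℝ) / (1 / 2)) := by
        refine mul_le_mul_of_nonneg_left ?_ h0.le
        refine h2.trans ?_
        gcongr
    _ = 2 * (ε * ε ^ (-(21 / 40) : ℝ)) := by ring
    _ = 2 * ε ^ (19 / 40 : ℝ) := by rw [h5]
    _ ≤ 2 * ε ^ (1 / 4 : ℝ) := by
        have := rp_le h0 h1 (show (1 / 4 : ℝ) ≤ 19 / 40 by norm_num)
        linarith

/-- `(ρ / R) (R / D) ^ (1/10)` is small -/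
theorem ratio_small {ε ρ D R : ℝ} (h0 : 0 < ε) (h1 : ε ≤ 1) (hρ : 0 < ρ) (hρD : ρ ≤ D)
    (hDR : D ≤ ε ^ (3 / 10 : ℝ) * R) :
    ρ / R * (R / D) ^ (1 / 10 : ℝ) ≤ ε ^ (1 / 4 : ℝ) := by
  have hD : 0 < D := by linarith
  have he : 0 < ε ^ (3 / 10 : ℝ) := Real.rpow_pos_of_pos h0 _
  have hR : 0 < R := by
    by_contra h
    nlinarith [not_lt.1 h]
  have hDR' : D / R ≤ ε ^ (3 / 10 : ℝ) := by
    rw [div_le_iff₀ hR]
    exact hDR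
  have h2 : ρ / R * (R / D) ^ (1 / 10 : ℝ) ≤ D / R * (R / D) ^ (1 / 10 : ℝ) := by
    gcongr
  refine h2.trans ?_
  have h3 : D / R * (R / D) ^ (1 / 10 : ℝ) = (D / R) ^ (9 / 10 : ℝ) := by
    rw [← inv_div D R, Real.inv_rpow (by positivity), ← Real.rpow_neg (by positivity)]
    conv_lhs => rw [← Real.rpow_one (D / R), ← Real.rpow_mul (by positivity), one_mul,
      ← Real.rpow_add (by positivity)]
    norm_num
  rw [h3]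
  calc (D / R) ^ (9 / 10 : ℝ) ≤ (ε ^ (3 / 10 : ℝ)) ^ (9 / 10 : ℝ) :=
        Real.rpow_le_rpow (by positivity) hDR' (by norm_num)
    _ = ε ^ (27 / 100 : ℝ) := by
        rw [← Real.rpow_mul h0.le]
        norm_num
    _ ≤ ε ^ (1 / 4 : ℝ) := rp_le h0 h1 (by norm_num)

/-- `ρ T2` -/
theorem T2_bound {ε ρ D R A q K Y T2 : ℝ} (h0 : 0 < ε) (h1 : ε ≤ 1) (hρ : 0 < ρ) (hρD : ρ ≤ D)
    (hR : 0 < R) (hA : 0 ≤ A) (hq : 0 < q) (hK : 1 ≤ K) (hY : Y ≤ 3 / 2 * A * q)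
    (hT : T2 ≤ 2 / q * (ε ^ (119 / 100 : ℝ) * Y / ρ) +
      K * A * (ε ^ 2 / D ^ 1 + (R / D) ^ (1 / 10 : ℝ) / R ^ 1)) :
    ρ * T2 ≤ (3 + K) * A * (ε ^ (115 / 100 : ℝ) + ρ / R * (R / D) ^ (1 / 10 : ℝ)) := by
  have hD : 0 < D := by linarith
  have e1 : ε ^ (119 / 100 : ℝ) ≤ ε ^ (115 / 100 : ℝ) := rp_le h0 h1 (by norm_num)
  have e2 : ε ^ 2 ≤ ε ^ (115 / 100 : ℝ) := by
    rw [← Real.rpow_natCast]
    exact rp_le h0 h1 (by norm_num)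
  have e0 : 0 < ε ^ (119 / 100 : ℝ) := Real.rpow_pos_of_pos h0 _
  have r0 : 0 ≤ ρ / R * (R / D) ^ (1 / 10 : ℝ) := by positivity
  have b1 : ρ * (2 / q * (ε ^ (119 / 100 : ℝ) * Y / ρ)) ≤ 3 * A * ε ^ (115 / 100 : ℝ) := by
    calc ρ * (2 / q * (ε ^ (119 / 100 : ℝ) * Y / ρ)) = 2 / q * ε ^ (119 / 100 : ℝ) * Y := by
          field_simp
      _ ≤ 2 / q * ε ^ (119 / 100 : ℝ) * (3 / 2 * A * q) := by gcongr
      _ = 3 * A * ε ^ (119 / 100 : ℝ) := by field_simp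
      _ ≤ 3 * A * ε ^ (115 / 100 : ℝ) := by gcongr
  have b2 : ρ * (K * A * (ε ^ 2 / D ^ 1 + (R / D) ^ (1 / 10 : ℝ) / R ^ 1)) ≤
      K * A * (ε ^ (115 / 100 : ℝ) + ρ / R * (R / D) ^ (1 / 10 : ℝ)) := by
    have e3 : ρ / D * ε ^ 2 ≤ 1 * ε ^ (115 / 100 : ℝ) := by
      have : ρ / D ≤ 1 := (div_le_one hD).2 hρD
      gcongr
    calc ρ * (K * A * (ε ^ 2 / D ^ 1 + (R / D) ^ (1 / 10 : ℝ) / R ^ 1)) =
          K * A * (ρ / D * ε ^ 2 + ρ / R * (R / D) ^ (1 / 10 : ℝ)) := by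
          rw [pow_one, pow_one]
          ring
      _ ≤ K * A * (1 * ε ^ (115 / 100 : ℝ) + ρ / R * (R / D) ^ (1 / 10 : ℝ)) := by gcongr
      _ = _ := by rw [one_mul]
  have b3 : 3 * A * ε ^ (115 / 100 : ℝ) ≤
      3 * A * (ε ^ (115 / 100 : ℝ) + ρ / R * (R / D) ^ (1 / 10 : ℝ)) := by
    gcongr
    linarith
  calc ρ * T2 ≤ ρ * (2 / q * (ε ^ (119 / 100 : ℝ) * Y / ρ) +
        K * A * (ε ^ 2 / D ^ 1 + (R / D) ^ (1 / 10 : ℝ) / R ^ 1)) := by gcongr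
    _ = ρ * (2 / q * (ε ^ (119 / 100 : ℝ) * Y / ρ)) +
        ρ * (K * A * (ε ^ 2 / D ^ 1 + (R / D) ^ (1 / 10 : ℝ) / R ^ 1)) := by ring
    _ ≤ 3 * A * (ε ^ (115 / 100 : ℝ) + ρ / R * (R / D) ^ (1 / 10 : ℝ)) +
        K * A * (ε ^ (115 / 100 : ℝ) + ρ / R * (R / D) ^ (1 / 10 : ℝ)) :=
        add_le_add (b1.trans b3) b2
    _ = _ := by ring

/-- `q ρ^2 T3` -/
theorem T3_bound {ε ρ D R A q K J T3 : ℝ} (h0 : 0 < ε) (h1 : ε ≤ 1) (hρ : 0 < ρ) (hρD : ρ ≤ D)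
    (hR : 0 < R) (hA : 0 ≤ A) (hq : 0 < q) (hK : 1 ≤ K) (hJ : 0 < J)
    (hAq : A * q ≤ 3 * (D / ρ) * J)
    (hT : T3 ≤ 2 / q * (ε ^ (119 / 100 : ℝ) * J / ρ ^ 2) +
      K * A * (ε ^ 2 / D ^ 2 + (R / D) ^ (1 / 10 : ℝ) / R ^ 2)) :
    q * ρ ^ 2 * T3 ≤ (2 + 3 * K) * (eB ε ρ D R * J) := by
  have hD : 0 < D := by linarith
  have e1 : ε ^ (119 / 100 : ℝ) ≤ ε ^ (117 / 100 : ℝ) := rp_le h0 h1 (by norm_num)
  have e2 : ε ^ 2 ≤ ε ^ (117 / 100 : ℝ) := by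
    rw [← Real.rpow_natCast]
    exact rp_le h0 h1 (by norm_num)
  have e0 : 0 < ε ^ (119 / 100 : ℝ) := Real.rpow_pos_of_pos h0 _
  have r0 : 0 ≤ ρ * D / R ^ 2 * (R / D) ^ (1 / 10 : ℝ) := by positivity
  have b1 : q * ρ ^ 2 * (2 / q * (ε ^ (119 / 100 : ℝ) * J / ρ ^ 2)) ≤
      2 * (eB ε ρ D R * J) := by
    calc q * ρ ^ 2 * (2 / q * (ε ^ (119 / 100 : ℝ) * J / ρ ^ 2)) =
          2 * (ε ^ (119 / 100 : ℝ) * J) := by field_simp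
      _ ≤ 2 * (eB ε ρ D R * J) := by
          unfold eB
          gcongr
          linarith
  have b2 : q * ρ ^ 2 * (K * A * (ε ^ 2 / D ^ 2 + (R / D) ^ (1 / 10 : ℝ) / R ^ 2)) ≤
      3 * K * (eB ε ρ D R * J) := by
    have e3 : ρ / D * ε ^ 2 ≤ 1 * ε ^ (117 / 100 : ℝ) := by
      have : ρ / D ≤ 1 := (div_le_one hD).2 hρD
      gcongr
    calc q * ρ ^ 2 * (K * A * (ε ^ 2 / D ^ 2 + (R / D) ^ (1 / 10 : ℝ) / R ^ 2)) =
          K * (A * q) * (ρ ^ 2 * (ε ^ 2 / D ^ 2 + (R / D) ^ (1 / 10 : ℝ) / R ^ 2)) := by ring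
      _ ≤ K * (3 * (D / ρ) * J) *
          (ρ ^ 2 * (ε ^ 2 / D ^ 2 + (R / D) ^ (1 / 10 : ℝ) / R ^ 2)) := by gcongr
      _ = 3 * K * ((ρ / D * ε ^ 2 + ρ * D / R ^ 2 * (R / D) ^ (1 / 10 : ℝ)) * J) := by
          field_simp
      _ ≤ 3 * K * ((1 * ε ^ (117 / 100 : ℝ) + ρ * D / R ^ 2 * (R / D) ^ (1 / 10 : ℝ)) * J) := by
          gcongr
      _ = _ := by
          unfold eB
          rw [one_mul]
  calc q * ρ ^ 2 * T3 ≤ q * ρ ^ 2 * (2 / q * (ε ^ (119 / 100 : ℝ) * J / ρ ^ 2) +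
        K * A * (ε ^ 2 / D ^ 2 + (R / D) ^ (1 / 10 : ℝ) / R ^ 2)) := by gcongr
    _ = q * ρ ^ 2 * (2 / q * (ε ^ (119 / 100 : ℝ) * J / ρ ^ 2)) +
        q * ρ ^ 2 * (K * A * (ε ^ 2 / D ^ 2 + (R / D) ^ (1 / 10 : ℝ) / R ^ 2)) := by ring
    _ ≤ 2 * (eB ε ρ D R * J) + 3 * K * (eB ε ρ D R * J) := add_le_add b1 b2
    _ = _ := by ring

/-- the error of the average -/
theorem dN_bound {ε ρ D R J Y s E dN : ℝ} (h0 : 0 < ε) (h1 : ε ≤ 1) (hρ : 0 < ρ)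
    (hρD : 7 / 5 * ρ ≤ D) (hR : 0 < R) (hJ : 0 < J) (hY : Y ≤ D / ρ * J) (hY0 : 0 ≤ Y)
    (hs : s ≤ ε ^ (59 / 100 : ℝ) * ρ) (hs0 : 0 < s) (hE : D - 3 / 5 * ρ ≤ E)
    (hdN : dN ≤ 12 * Y) (hdN0 : 0 ≤ dN) :
    dN * (19 / 2 * ((s / 2) ^ 2 / E ^ 2)) ≤ 63 * (eB ε ρ D R * J) := by
  have hD : 0 < D := by linarith
  have hE1 : 4 / 7 * D ≤ E := by linarith
  have hE0 : 0 < E := by linarith
  have e0 : (ε ^ (59 / 100 : ℝ)) ^ 2 = ε ^ (118 / 100 : ℝ) := by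
    rw [← Real.rpow_natCast, ← Real.rpow_mul h0.le]
    norm_num
  have e1 : ε ^ (118 / 100 : ℝ) ≤ ε ^ (117 / 100 : ℝ) := rp_le h0 h1 (by norm_num)
  have e2 : 0 < ε ^ (118 / 100 : ℝ) := Real.rpow_pos_of_pos h0 _
  have r0 : 0 ≤ ρ * D / R ^ 2 * (R / D) ^ (1 / 10 : ℝ) := by positivity
  have hρD2 : ρ / D ≤ 5 / 7 := by
    rw [div_le_iff₀ hD]
    linarith
  calc dN * (19 / 2 * ((s / 2) ^ 2 / E ^ 2)) ≤
        12 * (D / ρ * J) * (19 / 2 * ((ε ^ (59 / 100 : ℝ) * ρ / 2) ^ 2 / (4 / 7 * D) ^ 2)) := by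
        have : dN ≤ 12 * (D / ρ * J) := by linarith
        gcongr
    _ = 2793 / 32 * (ε ^ (59 / 100 : ℝ)) ^ 2 * J * (ρ / D) := by
        field_simp
        norm_num
    _ ≤ 2793 / 32 * (ε ^ (59 / 100 : ℝ)) ^ 2 * J * (5 / 7) := by gcongr
    _ ≤ 63 * (ε ^ (118 / 100 : ℝ) * J) := by
        rw [e0]
        have : 0 < ε ^ (118 / 100 : ℝ) * J := by positivity
        linarith
    _ ≤ 63 * (eB ε ρ D R * J) := by
        unfold eB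
        gcongr
        linarith

/-- from a small logarithm to a ratio -/
theorem ratio_of_log {a b : ℝ} (ha : 0 < a) (hb : 0 < b) (h : |Real.log a - Real.log b| ≤ 1 / 200) :
    99 / 100 * b ≤ a ∧ a ≤ 101 / 100 * b := by
  have h1 := abs_le.1 h
  have e1 : Real.exp (1 / 200 : ℝ) ≤ 101 / 100 := by
    have := Real.exp_bound_div_one_sub_of_interval (x := 1 / 200) (by norm_num) (by norm_num)
    refine this.trans ?_
    norm_num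
  have key : ∀ c d : ℝ, 0 < c → 0 < d → Real.log c - Real.log d ≤ 1 / 200 → c ≤ 101 / 100 * d := by
    intro c d hc hd hcd
    have h2 : Real.log c ≤ Real.log (101 / 100 * d) := by
      rw [Real.log_mul (by norm_num) hd.ne']
      have h3 : (1 / 200 : ℝ) ≤ Real.log (101 / 100) := by
        rw [Real.le_log_iff_exp_le (by norm_num)]
        exact e1
      linarith
    exact (Real.log_le_log_iff hc (by positivity)).1 h2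
  have h4 := key a b ha hb h1.2
  have h5 := key b a hb ha (by linarith [h1.1])
  constructor
  · linarith
  · exact h4

end Pool.Agent.Helper95.CV.Q10
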