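import Pool.Agent.Helper95.CV.Q10d
import Pool.Agent.Helper95.CV.Q10e

set_option autoImplicit false

/-! # Module Q10: the local law -/

namespace Pool.Agent.Helper95.CV.Q10

open MeasureTheory Set Pool.Agent.Helper36.CV

open Complex (I)

section
variable {Hm Hp : ℝ} {C : Set ℝ} {cd : CD Hm Hp C}

theorem near_V (hP3 : ST_P3) (V : Gap cd) (x ρ : ℝ) :
    IntegrableOn (fun t => vf cd t / |V.q t|) (Icc (x - ρ) (x + ρ)) := by
  have hc : V.c ∈ Ioo V.a V.b := by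
    have := V.lt
    unfold Gap.c
    constructor <;> linarith
  have h1 := ((hP3 Hm Hp C cd V.a V.b V.N V.lt V.lab).1 V.c hc).1
  have h2 : IntegrableOn (fun t => vf cd t / (|V.q t| * |t - V.c|) * |t - V.c|)
      (Icc (x - ρ) (x + ρ)) := by
    have h3 : IntegrableOn (fun t => vf cd t / (|V.q t| * |t - V.c|)) (Icc (x - ρ) (x + ρ)) :=
      h1.integrableOn
    exact h3.mul_continuousOn (by fun_prop) isCompact_Icc
  refine h2.congr (ae_of_all _ fun t => ?_)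
  simp only
  by_cases ht : t = V.c
  · have : V.q t = 0 := by
      rw [ht]
      exact qr_inside hc.1.le hc.2.le
    rw [this]
    simp
  · have : |t - V.c| ≠ 0 := by
      rw [abs_ne_zero]
      exact sub_ne_zero.2 ht
    rw [← div_div, div_mul_cancel₀ _ this]

theorem g_formula (hP3 : ST_P3) (V0 : Gap cd) (x : ℝ) {ρ : ℝ} (hρ : 0 < ρ) :
    (Integrable fun t : ℝ => ((vf cd t / V0.q t : ℝ) : ℂ) /
      ((t : ℂ) - ((x : ℂ) + (ρ : ℂ) * I))) ∧
    V0.g ((x : ℂ) + (ρ : ℂ) * I) = ((1 / Real.pi : ℝ) : ℂ) *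
      (∫ t : ℝ, ((vf cd t / V0.q t : ℝ) : ℂ) / ((t : ℂ) - ((x : ℂ) + (ρ : ℂ) * I))) := by
  have hz : ((x : ℂ) + (ρ : ℂ) * I) ∈ Uo := by
    simp only [Uo, mem_ofPred_eq]
    simpa using hρ
  obtain ⟨h1, h2⟩ := (hP3 Hm Hp C cd V0.a V0.b V0.N V0.lt V0.lab).2.1 _ hz
  refine ⟨h1, ?_⟩
  have h3 : cd.f ((x : ℂ) + (ρ : ℂ) * I) - (V0.N : ℂ) = qc V0.a V0.b ((x : ℂ) + (ρ : ℂ) * I) *
      (((1 / Real.pi : ℝ) : ℂ) * (∫ t : ℝ, ((vf cd t / V0.q t : ℝ) : ℂ) /
        ((t : ℂ) - ((x : ℂ) + (ρ : ℂ) * I)))) := h2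
  unfold Gap.g
  rw [div_eq_iff (qc_ne hz), h3, mul_comm]

end

theorem st_Q10 (hP1 : ST_P1) (hP2 : ST_P2) (hP3 : ST_P3) (hP4 : ST_P4) (hP5 : ST_P5)
    (hQ3 : ST_Q3) (hQ4 : ST_Q4) (hQ8 : ST_Q8) (hQ9 : ST_Q9) : ST_Q10 := by
  obtain ⟨K3, hK3, H3⟩ := hQ3
  obtain ⟨ε8, hε8, H8⟩ := hQ8
  obtain ⟨K9, ε9, hK9, hε9, H9⟩ := hQ9
  have hKK : 0 < K3 + K9 := by linarith
  set κ : ℝ := 1 / (1000 * (K3 + K9)) with hκ
  have hκ0 : 0 < κ := by positivity
  refine ⟨100 + 20 * K9, min (min ε8 ε9) (min (1 / 10 ^ 5) (κ ^ 4)), by linarith,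
    lt_min (lt_min hε8 hε9) (lt_min (by norm_num) (by positivity)), ?_⟩
  intro ε Hm Hp C cd hPar hε V0 x ρ D R hmu hLW hD hρ hρD hDρ hDR hreg1 hreg2
  have hε0 : 0 < ε := hPar.1
  have hHm : 0 < Hm := hPar.2.1
  have hεa : ε ≤ ε8 := hε.trans ((min_le_left _ _).trans (min_le_left _ _))
  have hεb : ε ≤ ε9 := hε.trans ((min_le_left _ _).trans (min_le_right _ _))
  have hεc : ε ≤ 1 / 10 ^ 5 := hε.trans ((min_le_right _ _).trans (min_le_left _ _))
  have hεd : ε ≤ κ ^ 4 := hε.trans ((min_le_right _ _).trans (min_le_right _ _))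
  have hε1 : ε ≤ 1 := hεc.trans (by norm_num)
  set e := ε ^ (1 / 4 : ℝ) with he
  have he0 : 0 < e := Real.rpow_pos_of_pos hε0 _
  have heκ : e ≤ κ := quarter hε0 hκ0 hεd
  have heK : (K3 + K9) * e ≤ 1 / 1000 := by
    have h1 : (K3 + K9) * e ≤ (K3 + K9) * κ := by gcongr
    have h2 : (K3 + K9) * κ = 1 / 1000 := by
      rw [hκ]
      field_simp
    linarith
  have heK3 : K3 * e ≤ 1 / 1000 := by
    have h1 : 0 < K9 * e := mul_pos (by linarith) he0
    linarith [add_mul K3 K9 e]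
  have heK9 : K9 * e ≤ 1 / 1000 := by
    have h1 : 0 < K3 * e := mul_pos (by linarith) he0
    linarith [add_mul K3 K9 e]
  have he3 : e ≤ 1 / 1000 := by
    have h1 : 1 * e ≤ K3 * e := mul_le_mul_of_nonneg_right hK3 he0.le
    linarith
  have hεe : ε ≤ e := by
    have := rp_le hε0 hε1 (show (1 / 4 : ℝ) ≤ 1 by norm_num)
    rwa [Real.rpow_one] at this
  have h3e : ε ^ (3 / 10 : ℝ) ≤ e := rp_le hε0 hε1 (by norm_num)
  have h59e : ε ^ (59 / 100 : ℝ) ≤ e := rp_le hε0 hε1 (by norm_num)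
  have hD0 : 0 < D := by linarith
  have hs0 : 0 < V0.s := sub_pos.2 V0.lt
  have h3pos : 0 < ε ^ (3 / 10 : ℝ) := Real.rpow_pos_of_pos hε0 _
  have hR : 0 < R := by
    by_contra h
    nlinarith [not_lt.1 h]
  have hDeR : D + V0.s ≤ e * R := hDR.trans (by gcongr)
  have hDR' : D ≤ ε ^ (3 / 10 : ℝ) * R := by linarith
  have hρD' : ρ ≤ D := by linarith
  have hv0 : ∀ t, 0 ≤ vf cd t := fun t => cd.im_nonneg t
  have ca0 : V0.a = V0.c - V0.s / 2 := by unfold Gap.c Gap.s; ring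
  have cb0 : V0.b = V0.c + V0.s / 2 := by unfold Gap.c Gap.s; ring
  -- P1
  obtain ⟨-, -, P13, -, -, P16⟩ := hP1 Hm Hp C cd
  obtain ⟨-, -, -, -, P25, -, P27, -, -, -, -, -⟩ := hP2 Hm Hp C cd hHm
  set J := Yf cd x ρ with hJ
  have hJ0 : 0 < J := (P13 x ρ ρ hρ le_rfl).1
  obtain ⟨-, hYJ1, hYJ2⟩ := P13 x ρ D hρ hρD'
  have hYD0 : 0 < Yf cd x D := (P13 x D D hD0 le_rfl).1
  have hYJ : Yf cd x D ≤ D / ρ * J := by
    rw [div_le_div_iff₀ hD0 hρ] at hYJ2
    rw [div_mul_eq_mul_div, le_div_iff₀ hρ]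
    linarith
  -- the amplitude
  have hcz : ∀ r : ℝ, 0 < r → r ≤ D →
      ‖((x : ℂ) + (r : ℂ) * I) - (((V0.a + V0.b) / 2 : ℝ) : ℂ)‖ ≤ 2 * (e * R) := by
    intro r hr hrD
    have h1 := Complex.norm_le_abs_re_add_abs_im
      (((x : ℂ) + (r : ℂ) * I) - (((V0.a + V0.b) / 2 : ℝ) : ℂ))
    have e1 : (((x : ℂ) + (r : ℂ) * I) - (((V0.a + V0.b) / 2 : ℝ) : ℂ)).re = D + V0.s / 2 := by
      simp only [Complex.sub_re, Complex.add_re, Complex.ofReal_re, Complex.mul_re, Complex.I_re,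
        Complex.ofReal_im, Complex.I_im]
      rw [hD, ca0, cb0]
      ring
    have e2 : (((x : ℂ) + (r : ℂ) * I) - (((V0.a + V0.b) / 2 : ℝ) : ℂ)).im = r := by
      simp only [Complex.sub_im, Complex.add_im, Complex.ofReal_re, Complex.mul_im, Complex.I_re,
        Complex.ofReal_im, Complex.I_im]
      ring
    rw [e1, e2, abs_of_pos (by positivity), abs_of_pos hr] at h1
    linarith
  have hzU : ∀ r : ℝ, 0 < r → ((x : ℂ) + (r : ℂ) * I) ∈ Uo := by
    intro r hr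
    simp only [Uo, mem_ofPred_eq]
    simpa using hr
  have heR : e * R ≤ 1 / 1000 * R := mul_le_mul_of_nonneg_right he3 hR.le
  have hR4 : 2 * (e * R) ≤ R / 4 := by linarith
  obtain ⟨A1, A2, -⟩ := H3 ε Hm Hp C cd hHm hε0 (hεc.trans (by norm_num)) V0.a V0.b V0.N R
    V0.lt.le (by
      have : V0.s ≤ e * R := by linarith
      have h2 : V0.b - V0.a = V0.s := rfl
      rw [h2]
      linarith) hR V0.lab (fun t ht => P27 V0 t ht) (fun t ht htI => by
      have h1 := hLW t ht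
      exact ((hQ4 ε Hm Hp C cd hPar hεc).2.2.2 V0 t h1).2.2.1 htI)
  have harg : ∀ r : ℝ, 0 < r → r ≤ D → |(V0.g ((x : ℂ) + (r : ℂ) * I)).arg| ≤ 1 / 100 := by
    intro r hr hrD
    have h1 := A1 _ (hzU r hr) ((hcz r hr hrD).trans hR4)
    refine h1.trans ?_
    have h2 : ‖((x : ℂ) + (r : ℂ) * I) - (((V0.a + V0.b) / 2 : ℝ) : ℂ)‖ / R ≤ 2 * e := by
      rw [div_le_iff₀ hR]
      linarith [hcz r hr hrD]
    linarith
  set A := ‖V0.g ((x : ℂ) + (D : ℂ) * I)‖ with hA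
  set q := Real.sqrt (D * (D + V0.s)) with hq
  have hq0 : 0 < q := Real.sqrt_pos.2 (by positivity)
  obtain ⟨B1, B2⟩ := amp V0 hD hD0
  have B3 := B2 (harg D hD0 le_rfl)
  rw [← hA, ← hq] at B1 B3
  have hA0 : 0 < A := by
    by_contra h
    have : A = 0 := le_antisymm (not_lt.1 h) (norm_nonneg _)
    rw [this] at B1
    linarith
  have hAq : A * q ≤ 3 * (D / ρ) * J := by
    have : 3 * Yf cd x D ≤ 3 * (D / ρ * J) := by linarith
    linarith
  have hgpos : ∀ r : ℝ, 0 < r → 0 < ‖V0.g ((x : ℂ) + (r : ℂ) * I)‖ := by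
    intro r hr
    have hz := hzU r hr
    refine norm_pos_iff.2 ?_
    unfold Gap.g
    refine div_ne_zero (fun h => ?_) (qc_ne hz)
    have h1 := cd.im_pos _ hz
    have h2 : (cd.f ((x : ℂ) + (r : ℂ) * I) - (V0.N : ℂ)).im = 0 := by rw [h]; simp
    rw [Complex.sub_im, Complex.ofReal_im, sub_zero] at h2
    linarith
  have hratio : 99 / 100 * A ≤ ‖V0.g ((x : ℂ) + (ρ : ℂ) * I)‖ ∧
      ‖V0.g ((x : ℂ) + (ρ : ℂ) * I)‖ ≤ 101 / 100 * A := by
    refine ratio_of_log (hgpos ρ hρ) hA0 ?_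
    have h1 := A2 _ (hzU ρ hρ) _ (hzU D hD0) ((hcz ρ hρ hρD').trans hR4)
      ((hcz D hD0 le_rfl).trans hR4)
    refine h1.trans ?_
    have n1 : ‖((x : ℂ) + (ρ : ℂ) * I) - ((x : ℂ) + (D : ℂ) * I)‖ = D - ρ := by
      have : ((x : ℂ) + (ρ : ℂ) * I) - ((x : ℂ) + (D : ℂ) * I) = ((ρ - D : ℝ) : ℂ) * I := by
        push_cast
        ring
      rw [this, norm_mul, Complex.norm_I, mul_one, Complex.norm_real, Real.norm_eq_abs,
        abs_of_nonpos (by linarith)]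
      ring
    have n2 : ((x : ℂ) + (ρ : ℂ) * I).im = ρ := by simp
    have n3 : ((x : ℂ) + (D : ℂ) * I).im = D := by simp
    rw [n1, n2, n3]
    have l1 : 1 + (D - ρ) / ρ = D / ρ := by field_simp; ring
    rw [l1]
    have l2 : Real.log (1 + (D - ρ) / D) ≤ 1 := by
      have h2 : 0 ≤ (D - ρ) / D := div_nonneg (by linarith) hD0.le
      have h3 : (D - ρ) / D ≤ 1 := by
        rw [div_le_one hD0]
        linarith
      have h4 := Real.log_le_sub_one_of_pos (show 0 < 1 + (D - ρ) / D by linarith)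
      linarith
    have l3 : ε * Real.log (D / ρ) ≤ 2 * e := log_small hε0 hε1 (by positivity) (by
      rw [div_le_iff₀ hρ]
      exact hDρ)
    have l4 : (D - ρ) / R ≤ e := by
      rw [div_le_iff₀ hR]
      linarith
    have l5 : ε * (1 + Real.log (D / ρ) + Real.log (1 + (D - ρ) / D)) + (D - ρ) / R ≤ 5 * e := by
      have : ε * Real.log (1 + (D - ρ) / D) ≤ ε * 1 := by gcongr
      linarith
    calc K3 * (ε * (1 + Real.log (D / ρ) + Real.log (1 + (D - ρ) / D)) + (D - ρ) / R) ≤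
          K3 * (5 * e) := by gcongr
      _ ≤ 1 / 200 := by linarith
  -- integrals
  obtain ⟨hint, hg⟩ := g_formula hP3 V0 x hρ
  have hclose := g_close (w := fun t => vf cd t / V0.q t) hρ hint
  rw [← hg] at hclose
  set W1 := ∫ t in (Icc (x - ρ) (x + ρ))ᶜ, vf cd t / V0.q t / (t - x) ^ 1 with hW1
  set W2 := ∫ t in (Icc (x - ρ) (x + ρ))ᶜ, vf cd t / V0.q t / (t - x) ^ 2 with hW2
  set T2 := ∫ t in (Icc (x - ρ) (x + ρ))ᶜ, |vf cd t / V0.q t| / |t - x| ^ 2 with hT2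
  set T3 := ∫ t in (Icc (x - ρ) (x + ρ))ᶜ, |vf cd t / V0.q t| / |t - x| ^ 3 with hT3
  set M0 := ∫ t in Icc (x - ρ) (x + ρ), |vf cd t / V0.q t| with hM0
  have hT20 : 0 ≤ T2 := integral_nonneg fun t => by positivity
  have hT30 : 0 ≤ T3 := integral_nonneg fun t => by positivity
  have hq2 : ∀ t ∈ Icc (x - D / 2) (x + D / 2), q / 2 ≤ |V0.q t| := by
    intro t ht
    have h1 := q_low V0 (r := D / 2) hD (by linarith) ht.1
    have h2 : q / 2 ≤ Real.sqrt ((D - D / 2) * (D - D / 2 + V0.s)) := by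
      refine Real.le_sqrt_of_sq_le ?_
      rw [div_pow, hq, Real.sq_sqrt (by positivity)]
      linarith [mul_pos hD0 hs0]
    exact (h2.trans h1).trans (le_abs_self _)
  have hρε : ρ ≤ ε ^ (-(21 / 20) : ℝ) * ρ := by
    have : (1 : ℝ) ≤ ε ^ (-(21 / 20) : ℝ) := Real.one_le_rpow_of_pos_of_le_one_of_nonpos hε0 hε1
      (by norm_num)
    exact le_mul_of_one_le_left hρ.le this
  have hmass := (H8 ε Hm Hp C cd hPar hεa x ρ ρ ρ hρ le_rfl le_rfl hρε hreg2).1
  have hYh : Yf cd x (D / 2) ≤ 3 / 2 * A * q := ((P13 x (D / 2) D (by linarith) (by linarith)).2.1).trans B1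
  have hYh0 : 0 < Yf cd x (D / 2) := (P13 x (D / 2) D (by linarith) (by linarith)).1
  have hK9D : K9 * (D + V0.s) ≤ R := by
    calc K9 * (D + V0.s) ≤ K9 * (e * R) := by gcongr
      _ = K9 * e * R := by ring
      _ ≤ 1 * R := by
          gcongr
          linarith
      _ = R := one_mul R
  obtain ⟨i92, b92⟩ := H9 ε Hm Hp C cd hPar hεb V0 x D R A hmu hLW hD hD0 hK9D hA 2 (Or.inl rfl)
  obtain ⟨i93, b93⟩ := H9 ε Hm Hp C cd hPar hεb V0 x D R A hmu hLW hD hD0 hK9D hA 3 (Or.inr rfl)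
  have hpw : 0 < ε ^ (119 / 100 : ℝ) := Real.rpow_pos_of_pos hε0 _
  have hT2b := tail cd (q0 := V0.q) (k := 2) (S := ε ^ (119 / 100 : ℝ) * Yf cd x (D / 2) / ρ) hρ hq0
    (by norm_num) hint hq2 (by positivity) (fun hc =>
      (H8 ε Hm Hp C cd hPar hεa x ρ ρ (D / 2) hρ le_rfl hc (by linarith) hreg1).2.2.2) i92 b92
  have hT3b := tail cd (q0 := V0.q) (k := 3) (S := ε ^ (119 / 100 : ℝ) * J / ρ ^ 2) hρ hq0
    (by norm_num) hint hq2 (by positivity) (fun hc =>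
      (H8 ε Hm Hp C cd hPar hεa x ρ ρ (D / 2) hρ le_rfl hc (by linarith) hreg1).2.2.1) i93 b93
  rw [← hT2] at hT2b
  rw [← hT3] at hT3b
  have hρT2 := T2_bound (K := K9) hε0 hε1 hρ hρD' hR hA0.le hq0 hK9 hYh hT2b
  have hqT3 := T3_bound (K := K9) hε0 hε1 hρ hρD' hR hA0.le hq0 hK9 hJ0 hAq hT3b
  set η := ε ^ (115 / 100 : ℝ) + ρ / R * (R / D) ^ (1 / 10 : ℝ) with hη
  have hη0 : 0 < η := by
    have : 0 < ε ^ (115 / 100 : ℝ) := Real.rpow_pos_of_pos hε0 _
    positivity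
  have hη1 : η ≤ 2 * e := by
    have h1 : ε ^ (115 / 100 : ℝ) ≤ e := rp_le hε0 hε1 (by norm_num)
    have h2 := ratio_small hε0 hε1 hρ hρD' hDR'
    linarith
  have hM0b : M0 ≤ 7 / 2 / q * (2 * ε ^ (6 / 5 : ℝ) * (ρ / ρ) * ρ * J) := by
    have h1 : M0 ≤ ∫ t in Icc (x - ρ) (x + ρ), 7 / 2 / q * vf cd t := by
      refine setIntegral_mono_on (near_int hρ hint).abs
        (((v_cont cd).continuousOn.integrableOn_compact isCompact_Icc).const_mul _)
        measurableSet_Icc fun t ht => ?_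
      have h2 := q_low V0 (r := ρ) hD (by linarith) ht.1
      have h3 : 2 / 7 * q ≤ Real.sqrt ((D - ρ) * (D - ρ + V0.s)) := by
        refine Real.le_sqrt_of_sq_le ?_
        rw [mul_pow, hq, Real.sq_sqrt (by positivity)]
        have h4 : 2 / 7 * D ≤ D - ρ := by linarith
        have h5 : 2 / 7 * (D + V0.s) ≤ D - ρ + V0.s := by linarith
        calc (2 / 7) ^ 2 * (D * (D + V0.s)) = (2 / 7 * D) * (2 / 7 * (D + V0.s)) := by ring
          _ ≤ (D - ρ) * (D - ρ + V0.s) := by gcongr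
      have h6 : 2 / 7 * q ≤ V0.q t := h3.trans h2
      have h7 : 0 < V0.q t := by linarith
      rw [abs_div, abs_of_nonneg (hv0 t), abs_of_pos h7]
      calc vf cd t / V0.q t ≤ vf cd t / (2 / 7 * q) := by
            have := hv0 t
            gcongr
        _ = 7 / 2 / q * vf cd t := by
            field_simp
    rw [integral_const_mul] at h1
    refine h1.trans ?_
    gcongr
  have hM0c : M0 / ρ ≤ 21 / 2 * e * A := by
    have h65 : ε ^ (6 / 5 : ℝ) ≤ e := rp_le hε0 hε1 (by norm_num)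
    have h1 : J ≤ 3 / 2 * A * q := hYJ1.trans B1
    rw [div_le_iff₀ hρ]
    refine hM0b.trans ?_
    rw [div_self hρ.ne']
    calc 7 / 2 / q * (2 * ε ^ (6 / 5 : ℝ) * 1 * ρ * J) ≤
          7 / 2 / q * (2 * e * 1 * ρ * (3 / 2 * A * q)) := by gcongr
      _ = 21 / 2 * e * A * ρ := by
          field_simp
          norm_num
  have hpi := Real.pi_pos
  have hpi3 := Real.pi_gt_three
  have hipi : 1 / Real.pi ≤ 1 := by
    rw [div_le_one hpi]
    linarith
  have hP0close : ‖V0.g ((x : ℂ) + (ρ : ℂ) * I) - ((1 / Real.pi * W1 : ℝ) : ℂ)‖ ≤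
      1 / 50 * A := by
    refine hclose.trans ?_
    have h1 : 0 ≤ M0 / ρ + ρ * T2 := by
      have : 0 ≤ M0 := integral_nonneg fun t => abs_nonneg _
      positivity
    calc 1 / Real.pi * (M0 / ρ + ρ * T2) ≤ 1 * (M0 / ρ + ρ * T2) := by gcongr
      _ ≤ 21 / 2 * e * A + (3 + K9) * A * η := by
          rw [one_mul]
          exact add_le_add hM0c hρT2
      _ ≤ 21 / 2 * e * A + (3 + K9) * A * (2 * e) := by gcongr
      _ = (33 / 2 * e + 2 * (K9 * e)) * A := by ring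
      _ ≤ 1 / 50 * A := by
          gcongr
          linarith
  set P0 := 1 / Real.pi * W1 with hP0
  set P1 := 1 / Real.pi * W2 with hP1'
  have hP0A : 24 / 25 * A ≤ P0 ∧ P0 ≤ 26 / 25 * A := by
    have h1 : |(V0.g ((x : ℂ) + (ρ : ℂ) * I)).re - P0| ≤ 1 / 50 * A := by
      have h2 := Complex.abs_re_le_norm (V0.g ((x : ℂ) + (ρ : ℂ) * I) - ((P0 : ℝ) : ℂ))
      rw [Complex.sub_re, Complex.ofReal_re] at h2
      exact h2.trans hP0close
    have h3 : (V0.g ((x : ℂ) + (ρ : ℂ) * I)).re ≤ ‖V0.g ((x : ℂ) + (ρ : ℂ) * I)‖ :=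
      (le_abs_self _).trans (Complex.abs_re_le_norm _)
    have h4 : 9999 / 10000 * ‖V0.g ((x : ℂ) + (ρ : ℂ) * I)‖ ≤
        (V0.g ((x : ℂ) + (ρ : ℂ) * I)).re := by
      rw [← Complex.norm_mul_cos_arg (V0.g ((x : ℂ) + (ρ : ℂ) * I)), mul_comm]
      have h5 := Real.one_sub_sq_div_two_le_cos (x := (V0.g ((x : ℂ) + (ρ : ℂ) * I)).arg)
      have h6 : (V0.g ((x : ℂ) + (ρ : ℂ) * I)).arg ^ 2 ≤ (1 / 100) ^ 2 := by
        rw [← sq_abs]
        have := harg ρ hρ hρD'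
        gcongr
      have h7 := (hgpos ρ hρ).le
      refine mul_le_mul_of_nonneg_left ?_ h7
      linarith
    have h8 := abs_le.1 h1
    constructor
    · linarith [hratio.1, h8.2]
    · linarith [hratio.2, h8.1]
  have hP0pos : 0 < P0 := by linarith [hP0A.1]
  refine ⟨P0, P1, hP0pos, ?_, ?_, ?_, ?_⟩
  · -- (b)
    have h1 : |W2| ≤ T2 := by
      rw [hW2, hT2, ← Real.norm_eq_abs]
      refine norm_integral_le_of_norm_le (far_int_abs hρ hint (k := 2) (by norm_num)) ?_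
      refine ae_of_all _ fun t => ?_
      rw [Real.norm_eq_abs, abs_div, abs_pow]
    have h2 : |P1| ≤ T2 := by
      rw [hP1', abs_mul, abs_of_pos (by positivity)]
      calc 1 / Real.pi * |W2| ≤ 1 * T2 := by gcongr
        _ = T2 := one_mul _
    calc |P1| * ρ ≤ T2 * ρ := by gcongr
      _ = ρ * T2 := mul_comm _ _
      _ ≤ (3 + K9) * A * η := hρT2
      _ ≤ (3 + K9) * (25 / 24 * P0) * η := by
          have : A ≤ 25 / 24 * P0 := by linarith [hP0A.1]
          gcongr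
      _ = (25 / 24 * (3 + K9)) * η * P0 := by ring
      _ ≤ (100 + 20 * K9) * η * P0 := by
          gcongr
          linarith
  · -- (c)
    calc P0 * q * ρ ≤ (26 / 25 * A) * q * ρ := by
          have := hP0A.2
          gcongr
      _ = 26 / 25 * (A * q) * ρ := by ring
      _ ≤ 26 / 25 * (3 * (D / ρ) * J) * ρ := by gcongr
      _ = 78 / 25 * (D * J) := by
          field_simp
          norm_num
      _ ≤ (100 + 20 * K9) * (D * J) := by
          gcongr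
          linarith
      _ = (100 + 20 * K9) * D * J := by ring
  · -- (d)
    have h1 : A ≤ 2 * P0 := by linarith [hP0A.1]
    calc J ≤ 3 / 2 * A * q := hYJ1.trans B1
      _ ≤ 3 / 2 * (2 * P0) * q := by gcongr
      _ = 3 * P0 * q := by ring
  · -- (e)
    intro V hVa hVb hVs
    have hVlt := V.lt
    have hbV : V0.b < V.a := by linarith
    have hne : V0 ≠ V := by
      intro h
      rw [h] at hbV
      linarith
    obtain ⟨h4i, h4⟩ := hP4 Hm Hp C cd V0 V hne (Or.inl hbV)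
    obtain ⟨h5i, h5⟩ := hP5 Hm Hp C cd V0 V hne (Or.inl hbV)
    have hVs' : V.s ≤ ρ / 20 := by
      have h1 : ε ^ (59 / 100 : ℝ) * ρ ≤ 1 / 1000 * ρ :=
        mul_le_mul_of_nonneg_right (h59e.trans he3) hρ.le
      linarith
    have hNlt : V0.N < V.N := (P25 V0 V (by linarith [V0.lt])).2
    have key := gap_law V0 V hρ hD hρD hint h4i h4 h5i h5 (near_V hP3 V x ρ) hVa hVb hVs' hNlt
    rw [← hW1, ← hW2, ← hT3, ← hP0, ← hP1', ← hq] at key
    obtain ⟨k1, k2⟩ := key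
    have hdN : V.N - V0.N ≤ 12 * Yf cd x D := by
      have h6 := P16 x D V.c V0.b hD0 (abs_le.2 ⟨by unfold Gap.c; linarith, by
        unfold Gap.c; linarith⟩) (by
          have : V0.b - x = -D := by linarith
          rw [this, abs_neg, abs_of_pos hD0])
      have h7 : Nf cd V.c = V.N := V.lab V.c ⟨by unfold Gap.c; linarith, by unfold Gap.c; linarith⟩
      have h8 : Nf cd V0.b = V0.N := V0.lab V0.b ⟨V0.lt.le, le_rfl⟩
      rw [h7, h8] at h6
      exact (le_abs_self _).trans h6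
    have hdb := dN_bound (E := V.c - V0.b) (s := V.s) hε0 hε1 hρ hρD hR hJ0 hYJ hYD0.le hVs
      (sub_pos.2 hVlt) (by unfold Gap.c; linarith) hdN (by linarith)
    have heB : 0 < eB ε ρ D R := by
      unfold eB
      have : 0 < ε ^ (117 / 100 : ℝ) := Real.rpow_pos_of_pos hε0 _
      positivity
    have heBJ : 0 < eB ε ρ D R * J := by positivity
    constructor
    · refine k1.trans ?_
      have h9 : 10 / 7 * q * ρ ^ 2 * T3 ≤ 10 / 7 * ((2 + 3 * K9) * (eB ε ρ D R * J)) := by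
        have e3 : 10 / 7 * q * ρ ^ 2 * T3 = 10 / 7 * (q * ρ ^ 2 * T3) := by ring
        rw [e3]
        exact mul_le_mul_of_nonneg_left hqT3 (by norm_num)
      have h10 : 10 / 7 * ((2 + 3 * K9) * (eB ε ρ D R * J)) + 63 * (eB ε ρ D R * J) ≤
          (100 + 20 * K9) * (eB ε ρ D R * J) := by
        have e3 : 10 / 7 * ((2 + 3 * K9) * (eB ε ρ D R * J)) + 63 * (eB ε ρ D R * J) =
          (10 / 7 * (2 + 3 * K9) + 63) * (eB ε ρ D R * J) := by ring
        rw [e3]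
        exact mul_le_mul_of_nonneg_right (by linarith) heBJ.le
      have h11 : (100 + 20 * K9) * eB ε ρ D R * J = (100 + 20 * K9) * (eB ε ρ D R * J) := by ring
      rw [h11]
      linarith
    · refine le_trans ?_ k2
      have h9 : 40 / 7 * q * ρ * T3 ≤ (100 + 20 * K9) * eB ε ρ D R * J / ρ := by
        rw [le_div_iff₀ hρ]
        calc 40 / 7 * q * ρ * T3 * ρ = 40 / 7 * (q * ρ ^ 2 * T3) := by ring
          _ ≤ 40 / 7 * ((2 + 3 * K9) * (eB ε ρ D R * J)) :=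
              mul_le_mul_of_nonneg_left hqT3 (by norm_num)
          _ = (40 / 7 * (2 + 3 * K9)) * (eB ε ρ D R * J) := by ring
          _ ≤ (100 + 20 * K9) * (eB ε ρ D R * J) :=
              mul_le_mul_of_nonneg_right (by linarith) heBJ.le
          _ = (100 + 20 * K9) * eB ε ρ D R * J := by ring
      linarith

end Pool.Agent.Helper95.CV.Q10
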