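import Mathlib

set_option autoImplicit false

/-! # Arcsine averages over an interval -/

namespace Pool.Agent.Helper95.CV.AV

open MeasureTheory Set

theorem S_pos {a b t : ℝ} (ht : t ∈ Ioo a b) : 0 < Real.sqrt ((t - a) * (b - t)) :=
  Real.sqrt_pos.2 (mul_pos (sub_pos.2 ht.1) (sub_pos.2 ht.2))

theorem S_sq {a b t : ℝ} (ht : t ∈ Icc a b) :
    Real.sqrt ((t - a) * (b - t)) ^ 2 = (t - a) * (b - t) :=
  Real.sq_sqrt (mul_nonneg (sub_nonneg.2 ht.1) (sub_nonneg.2 ht.2))

theorem S_cont (a b : ℝ) : Continuous fun t : ℝ => Real.sqrt ((t - a) * (b - t)) := by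
  fun_prop

theorem S_deriv {a b t : ℝ} (ht : t ∈ Ioo a b) :
    HasDerivAt (fun t : ℝ => Real.sqrt ((t - a) * (b - t)))
      ((a + b - 2 * t) / (2 * Real.sqrt ((t - a) * (b - t)))) t := by
  have h1 : HasDerivAt (fun t : ℝ => (t - a) * (b - t)) (a + b - 2 * t) t := by
    have := ((hasDerivAt_id t).sub_const a).mul ((hasDerivAt_id t).const_sub b)
    refine this.congr_deriv ?_
    simp only [id]
    ring
  exact h1.sqrt (mul_pos (sub_pos.2 ht.1) (sub_pos.2 ht.2)).ne'

/-- fundamental theorem of calculus for nonnegative derivatives -/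
theorem ftc {a b : ℝ} (hab : a < b) {F f : ℝ → ℝ} (hc : ContinuousOn F (Icc a b))
    (hd : ∀ t ∈ Ioo a b, HasDerivAt F (f t) t) (hp : ∀ t ∈ Ioo a b, 0 ≤ f t) :
    IntervalIntegrable f volume a b ∧ ∫ t in a..b, f t = F b - F a := by
  have h1 : IntervalIntegrable f volume a b := by
    rw [intervalIntegrable_iff_integrableOn_Ioc_of_le hab.le]
    exact intervalIntegral.integrableOn_deriv_of_nonneg hc hd hp
  exact ⟨h1, intervalIntegral.integral_eq_sub_of_hasDerivAt_of_le hab.le hc hd h1⟩

theorem int_one {a b : ℝ} (hab : a < b) :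
    IntervalIntegrable (fun t : ℝ => 1 / Real.sqrt ((t - a) * (b - t))) volume a b ∧
      ∫ t in a..b, 1 / Real.sqrt ((t - a) * (b - t)) = Real.pi := by
  have hba : 0 < b - a := sub_pos.2 hab
  obtain ⟨h1, h2⟩ := ftc hab (F := fun t : ℝ => Real.arcsin ((2 * t - a - b) / (b - a)))
    (f := fun t : ℝ => 1 / Real.sqrt ((t - a) * (b - t))) (by fun_prop) (fun t ht => by
      have hw1 : (2 * t - a - b) / (b - a) ≠ -1 := by
        intro h
        rw [div_eq_iff hba.ne'] at h
        linarith [ht.1]
      have hw2 : (2 * t - a - b) / (b - a) ≠ 1 := by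
        intro h
        rw [div_eq_iff hba.ne'] at h
        linarith [ht.2]
      have h3 : HasDerivAt (fun t : ℝ => (2 * t - a - b) / (b - a)) (2 / (b - a)) t := by
        have := ((((hasDerivAt_id t).const_mul (2 : ℝ)).sub_const a).sub_const b).div_const (b - a)
        refine this.congr_deriv ?_
        ring
      have h4 := (Real.hasDerivAt_arcsin hw1 hw2).comp t h3
      refine h4.congr_deriv ?_
      have e : 1 - ((2 * t - a - b) / (b - a)) ^ 2 =
          (2 / (b - a)) ^ 2 * ((t - a) * (b - t)) := by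
        field_simp
        ring
      rw [e, Real.sqrt_mul (by positivity), Real.sqrt_sq (by positivity)]
      have := S_pos ht
      field_simp) (fun t ht => by
      have := S_pos ht
      positivity)
  refine ⟨h1, ?_⟩
  rw [h2]
  have e1 : (2 * b - a - b) / (b - a) = 1 := by
    rw [div_eq_one_iff_eq hba.ne']
    ring
  have e2 : (2 * a - a - b) / (b - a) = -1 := by
    rw [div_eq_iff hba.ne']
    ring
  simp only [e1, e2, Real.arcsin_one, Real.arcsin_neg_one]
  ring

theorem int_cont {a b : ℝ} (hab : a < b) {f : ℝ → ℝ} (hf : ContinuousOn f (Icc a b)) :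
    IntervalIntegrable (fun t : ℝ => f t / Real.sqrt ((t - a) * (b - t))) volume a b := by
  have h := (int_one hab).1.mul_continuousOn (g := f) (by rwa [uIcc_of_le hab.le])
  refine h.congr (fun t _ => ?_)
  change 1 / Real.sqrt ((t - a) * (b - t)) * f t = f t / Real.sqrt ((t - a) * (b - t))
  ring

theorem int_lin {a b : ℝ} (hab : a < b) :
    ∫ t in a..b, (t - (a + b) / 2) / Real.sqrt ((t - a) * (b - t)) = 0 := by
  have h1 : IntervalIntegrable (fun t : ℝ => (t - (a + b) / 2) / Real.sqrt ((t - a) * (b - t)))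
      volume a b := int_cont hab (by fun_prop)
  rw [intervalIntegral.integral_eq_sub_of_hasDerivAt_of_le hab.le
    (f := fun t => -Real.sqrt ((t - a) * (b - t))) (by fun_prop) (fun t ht => ?_) h1]
  · simp
  · refine (S_deriv ht).neg.congr_deriv ?_
    have := S_pos ht
    field_simp
    ring

/-- if `f` is close to `1 - κ (t - c)` then its average is close to one -/
theorem av_near {a b : ℝ} (hab : a < b) {f : ℝ → ℝ} (hf : ContinuousOn f (Icc a b)) {κ B : ℝ}
    (h : ∀ t ∈ Icc a b, |f t - 1 + κ * (t - (a + b) / 2)| ≤ B) :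
    |(1 / Real.pi) * (∫ t in a..b, f t / Real.sqrt ((t - a) * (b - t))) - 1| ≤ B := by
  have hpi := Real.pi_pos
  have i1 := int_cont hab hf
  have i2 := (int_one hab).1
  have i3 : IntervalIntegrable (fun t : ℝ => (t - (a + b) / 2) / Real.sqrt ((t - a) * (b - t)))
      volume a b := int_cont hab (by fun_prop)
  have e : (∫ t in a..b, (f t - 1 + κ * (t - (a + b) / 2)) / Real.sqrt ((t - a) * (b - t))) =
      (∫ t in a..b, f t / Real.sqrt ((t - a) * (b - t))) - Real.pi := by
    have e1 : (fun t : ℝ => (f t - 1 + κ * (t - (a + b) / 2)) / Real.sqrt ((t - a) * (b - t))) =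
        fun t : ℝ => (f t / Real.sqrt ((t - a) * (b - t)) - 1 / Real.sqrt ((t - a) * (b - t))) +
          κ * ((t - (a + b) / 2) / Real.sqrt ((t - a) * (b - t))) := by
      funext t
      ring
    rw [e1, intervalIntegral.integral_add (i1.sub i2) (i3.const_mul κ),
      intervalIntegral.integral_sub i1 i2, (int_one hab).2, intervalIntegral.integral_const_mul,
      int_lin hab]
    ring
  have b1 : |∫ t in a..b, (f t - 1 + κ * (t - (a + b) / 2)) / Real.sqrt ((t - a) * (b - t))| ≤
      B * Real.pi := by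
    have h3 : ‖∫ t in a..b, (f t - 1 + κ * (t - (a + b) / 2)) / Real.sqrt ((t - a) * (b - t))‖ ≤
        ∫ t in a..b, B * (1 / Real.sqrt ((t - a) * (b - t))) := by
      refine intervalIntegral.norm_integral_le_of_norm_le hab.le ?_ (i2.const_mul B)
      refine (ae_of_all _ fun t ht => ?_)
      rw [norm_div, Real.norm_eq_abs, Real.norm_eq_abs, abs_of_nonneg (Real.sqrt_nonneg _),
        mul_one_div]
      exact div_le_div_of_nonneg_right (h t ⟨ht.1.le, ht.2⟩) (Real.sqrt_nonneg _)
    rw [intervalIntegral.integral_const_mul, (int_one hab).2] at h3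
    exact h3
  rw [e] at b1
  have e2 : (1 / Real.pi) * (∫ t in a..b, f t / Real.sqrt ((t - a) * (b - t))) - 1 =
      (1 / Real.pi) * ((∫ t in a..b, f t / Real.sqrt ((t - a) * (b - t))) - Real.pi) := by
    field_simp
  rw [e2, abs_mul, abs_of_pos (by positivity : 0 < 1 / Real.pi)]
  calc 1 / Real.pi * |(∫ t in a..b, f t / Real.sqrt ((t - a) * (b - t))) - Real.pi|
      ≤ 1 / Real.pi * (B * Real.pi) := by gcongr
    _ = B := by field_simp

/-- the average of `1 / (x - t) ^ 2` -/
theorem int_sq {a b x : ℝ} (hab : a < b) (hx : b < x) :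
    IntervalIntegrable (fun t : ℝ => 1 / (x - t) ^ 2 / Real.sqrt ((t - a) * (b - t))) volume a b ∧
    (1 / Real.pi) * ∫ t in a..b, 1 / (x - t) ^ 2 / Real.sqrt ((t - a) * (b - t)) =
      (x - (a + b) / 2) / ((x - a) * (x - b) * Real.sqrt ((x - a) * (x - b))) := by
  have hba : 0 < b - a := sub_pos.2 hab
  have hxb : 0 < x - b := sub_pos.2 hx
  have hxa : 0 < x - a := by linarith
  have hP : 0 < (x - a) * (x - b) := mul_pos hxa hxb
  have hsP : 0 < Real.sqrt ((x - a) * (x - b)) := Real.sqrt_pos.2 hP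
  have hsP2 : Real.sqrt ((x - a) * (x - b)) ^ 2 = (x - a) * (x - b) := Real.sq_sqrt hP.le
  set P := Real.sqrt ((x - a) * (x - b)) with hPdef
  set X := x - (a + b) / 2 with hX
  have hXpos : 0 < X := by
    rw [hX]
    linarith
  set w : ℝ → ℝ := fun t => (X * (2 * t - a - b) - (b - a) ^ 2 / 2) / ((b - a) * (x - t)) with hw
  have gc : ContinuousOn (fun t : ℝ => (X / P * Real.arcsin (w t) -
      Real.sqrt ((t - a) * (b - t)) / (x - t)) / P ^ 2) (Icc a b) := by
    have c1 : ContinuousOn w (Icc a b) := by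
      refine ContinuousOn.div (by fun_prop) (by fun_prop) fun t ht => ?_
      exact (mul_pos hba (by linarith [ht.2])).ne'
    have c2 : ContinuousOn (fun t : ℝ => Real.sqrt ((t - a) * (b - t)) / (x - t)) (Icc a b) := by
      refine ContinuousOn.div (by fun_prop) (by fun_prop) fun t ht => ?_
      linarith [ht.2]
    exact ((continuousOn_const.mul (Real.continuous_arcsin.comp_continuousOn c1)).sub c2).div_const _
  have gd : ∀ t ∈ Ioo a b, HasDerivAt (fun t : ℝ => (X / P * Real.arcsin (w t) -
      Real.sqrt ((t - a) * (b - t)) / (x - t)) / P ^ 2)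
      (1 / (x - t) ^ 2 / Real.sqrt ((t - a) * (b - t))) t := by
    intro t ht
    have hxt : 0 < x - t := by linarith [ht.2]
    have hS := S_pos ht
    have hS2 := S_sq ⟨ht.1.le, ht.2.le⟩
    have ne1 : (b - a) * (x - t) ≠ 0 := (mul_pos hba hxt).ne'
    have e3 : 1 - w t ^ 2 = (2 * P * Real.sqrt ((t - a) * (b - t)) / ((b - a) * (x - t))) ^ 2 := by
      have r : (2 * P * Real.sqrt ((t - a) * (b - t)) / ((b - a) * (x - t))) ^ 2 =
          4 * ((x - a) * (x - b)) * ((t - a) * (b - t)) / ((b - a) * (x - t)) ^ 2 := by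
        rw [div_pow, mul_pow, mul_pow, hS2, hsP2]
        ring
      rw [r]
      simp only [hw, hX]
      rw [div_pow, eq_div_iff (pow_ne_zero 2 ne1), sub_mul, div_mul_cancel₀ _ (pow_ne_zero 2 ne1)]
      ring
    have hpos : 0 < 2 * P * Real.sqrt ((t - a) * (b - t)) / ((b - a) * (x - t)) := by positivity
    have hw1 : w t ≠ -1 := by
      intro h
      rw [h] at e3
      have : (0 : ℝ) < (2 * P * Real.sqrt ((t - a) * (b - t)) / ((b - a) * (x - t))) ^ 2 := by
        positivity
      rw [← e3] at this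
      norm_num at this
    have hw2 : w t ≠ 1 := by
      intro h
      rw [h] at e3
      have : (0 : ℝ) < (2 * P * Real.sqrt ((t - a) * (b - t)) / ((b - a) * (x - t))) ^ 2 := by
        positivity
      rw [← e3] at this
      norm_num at this
    have d1 : HasDerivAt w (2 * P ^ 2 / ((b - a) * (x - t) ^ 2)) t := by
      have n1 : HasDerivAt (fun t : ℝ => X * (2 * t - a - b) - (b - a) ^ 2 / 2) (2 * X) t := by
        have := (((((hasDerivAt_id t).const_mul (2 : ℝ)).sub_const a).sub_const b).const_mul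
          X).sub_const ((b - a) ^ 2 / 2)
        refine this.congr_deriv ?_
        ring
      have n2 : HasDerivAt (fun t : ℝ => (b - a) * (x - t)) (-(b - a)) t := by
        have := ((hasDerivAt_id t).const_sub x).const_mul (b - a)
        refine this.congr_deriv ?_
        ring
      refine (n1.div n2 ne1).congr_deriv ?_
      rw [hsP2, hX]
      field_simp
      ring
    have d2 := (Real.hasDerivAt_arcsin hw1 hw2).comp t d1
    have d3 : HasDerivAt (fun t : ℝ => Real.sqrt ((t - a) * (b - t)) / (x - t))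
        (((a + b - 2 * t) / (2 * Real.sqrt ((t - a) * (b - t))) * (x - t) -
          Real.sqrt ((t - a) * (b - t)) * (-1)) / (x - t) ^ 2) t := by
      have n2 : HasDerivAt (fun t : ℝ => x - t) (-1) t := (hasDerivAt_id t).const_sub x
      exact (S_deriv ht).div n2 hxt.ne'
    refine (((d2.const_mul (X / P)).sub d3).div_const (P ^ 2)).congr_deriv ?_
    rw [e3, Real.sqrt_sq hpos.le]
    set S := Real.sqrt ((t - a) * (b - t)) with hSdef
    field_simp
    rw [hS2, hsP2, hX]
    ring
  have gp : ∀ t ∈ Ioo a b, 0 ≤ 1 / (x - t) ^ 2 / Real.sqrt ((t - a) * (b - t)) := by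
    intro t ht
    have := S_pos ht
    positivity
  obtain ⟨h1, h2⟩ := ftc hab gc gd gp
  refine ⟨h1, ?_⟩
  rw [h2]
  have e1 : w b = 1 := by
    simp only [hw, hX]
    rw [div_eq_one_iff_eq (mul_pos hba hxb).ne']
    ring
  have e2 : w a = -1 := by
    simp only [hw, hX]
    rw [div_eq_iff (mul_pos hba hxa).ne']
    ring
  simp only [e1, e2, Real.arcsin_one, Real.arcsin_neg_one]
  have hpi := Real.pi_pos
  simp only [sub_self, zero_mul, mul_zero, Real.sqrt_zero, zero_div, sub_zero]
  rw [← hsP2]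
  field_simp
  norm_num

/-- comparison of averages -/
theorem av_mono {a b : ℝ} (hab : a < b) {f g : ℝ → ℝ} (hf : ContinuousOn f (Icc a b))
    (hg : ContinuousOn g (Icc a b)) (h : ∀ t ∈ Icc a b, f t ≤ g t) :
    (1 / Real.pi) * (∫ t in a..b, f t / Real.sqrt ((t - a) * (b - t))) ≤
      (1 / Real.pi) * (∫ t in a..b, g t / Real.sqrt ((t - a) * (b - t))) := by
  have hpi := Real.pi_pos
  refine mul_le_mul_of_nonneg_left ?_ (by positivity)
  exact intervalIntegral.integral_mono_on hab.le (int_cont hab hf) (int_cont hab hg)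
    fun t ht => div_le_div_of_nonneg_right (h t ht) (Real.sqrt_nonneg _)

end Pool.Agent.Helper95.CV.AV
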