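import Pool.Agent.Helper36.CV.StmtsQ
import Pool.Agent.Helper95.CV.AV

set_option autoImplicit false

/-! # Module Q10, part 1: elementary and measure theoretic lemmas -/

namespace Pool.Agent.Helper95.CV.Q10

open MeasureTheory Set Pool.Agent.Helper36.CV

/-! ## pointwise facts -/

theorem qr_sq {a b t : ℝ} (h : 0 ≤ (t - a) * (t - b)) : qr a b t ^ 2 = (t - a) * (t - b) := by
  unfold qr
  split_ifs
  · rw [Real.sq_sqrt h]
  · rw [neg_sq, Real.sq_sqrt h]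

theorem qr_nonneg {a b t : ℝ} (h : b ≤ t) : 0 ≤ qr a b t := by
  unfold qr
  rw [if_pos h]
  exact Real.sqrt_nonneg _

theorem qr_eq {a b t : ℝ} (h : b ≤ t) : qr a b t = Real.sqrt ((t - a) * (t - b)) := by
  unfold qr
  rw [if_pos h]

theorem qr_pos {a b t : ℝ} (hab : a ≤ b) (h : b < t) : 0 < qr a b t := by
  rw [qr_eq h.le]
  exact Real.sqrt_pos.2 (mul_pos (by linarith) (by linarith))

theorem qr_inside {a b t : ℝ} (h1 : a ≤ t) (h2 : t ≤ b) : qr a b t = 0 := by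
  unfold qr
  have : (t - a) * (t - b) ≤ 0 := mul_nonpos_of_nonneg_of_nonpos (by linarith) (by linarith)
  rw [Real.sqrt_eq_zero_of_nonpos this]
  simp

/-- `q (t - c)` is nonnegative -/
theorem qr_mul_nonneg {a b t : ℝ} (hab : a ≤ b) : 0 ≤ qr a b t * (t - (a + b) / 2) := by
  rcases le_or_gt b t with h | h
  · exact mul_nonneg (qr_nonneg h) (by linarith)
  · rcases le_or_gt a t with h' | h'
    · rw [qr_inside h' h.le, zero_mul]
    · unfold qr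
      rw [if_neg (not_le.2 h)]
      have h1 := Real.sqrt_nonneg ((t - a) * (t - b))
      nlinarith

/-- comparison of `1 / q` with `1 / (t - c)`; here `Y = t - c`, `k` is the half length -/
theorem inv_aux {q Y k : ℝ} (hY : 10 * k ≤ |Y|) (hk : 0 < k) (hq : q ^ 2 = Y ^ 2 - k ^ 2)
    (hs : 0 ≤ q * Y) : |1 / q - 1 / Y| ≤ k ^ 2 / |Y| ^ 3 := by
  have hY0 : 0 < |Y| := by linarith
  have hYne : Y ≠ 0 := abs_pos.1 hY0
  have hYk : k ^ 2 ≤ |Y| ^ 2 / 100 := by nlinarith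
  have hq2 : (9 / 10 * |Y|) ^ 2 ≤ |q| ^ 2 := by
    rw [sq_abs, hq, ← sq_abs Y]
    nlinarith [sq_nonneg |Y|]
  have hq1 : 9 / 10 * |Y| ≤ |q| := abs_le_of_sq_le_sq' hq2 (abs_nonneg q) |>.2
  have hq0 : 0 < |q| := by nlinarith
  have hqne : q ≠ 0 := abs_pos.1 hq0
  have hqY : |q + Y| = |q| + |Y| := by
    rcases le_or_gt 0 Y with h | h
    · have h' : 0 < Y := lt_of_le_of_ne h (Ne.symm hYne)
      have : 0 ≤ q := by
        by_contra h2
        nlinarith [mul_neg_of_neg_of_pos (not_le.1 h2) h']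
      rw [abs_of_nonneg (by linarith), abs_of_nonneg this, abs_of_nonneg h]
    · have : q ≤ 0 := by
        by_contra h2
        nlinarith [mul_neg_of_pos_of_neg (not_le.1 h2) h]
      rw [abs_of_nonpos (by linarith), abs_of_nonpos this, abs_of_neg h]
      ring
  have e : (1 / q - 1 / Y) * (q * Y * (q + Y)) = k ^ 2 := by
    field_simp
    nlinarith
  have e2 : |1 / q - 1 / Y| * (|q| * |Y| * (|q| + |Y|)) = k ^ 2 := by
    rw [← hqY, ← abs_mul, ← abs_mul, ← abs_mul, e, abs_of_nonneg (sq_nonneg k)]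
  rw [le_div_iff₀ (by positivity)]
  have h3 : |Y| ^ 3 ≤ |q| * |Y| * (|q| + |Y|) := by
    have : |Y| ^ 2 ≤ |q| * (|q| + |Y|) := by nlinarith
    nlinarith
  calc |1 / q - 1 / Y| * |Y| ^ 3 ≤ |1 / q - 1 / Y| * (|q| * |Y| * (|q| + |Y|)) := by gcongr
    _ = k ^ 2 := e2

/-- data of a point far away: `y = t - x`, `δ = c - x` -/
theorem far_aux {ρ y δ k q : ℝ} (hρ : 0 < ρ) (hy : ρ ≤ |y|) (hδ : |δ| ≤ 3 / 5 * ρ)
    (hk : 0 < k) (hk' : k ≤ ρ / 40) (hq : q ^ 2 = (y - δ) ^ 2 - k ^ 2) (hs : 0 ≤ q * (y - δ)) :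
    |1 / q - (1 / y + δ / y ^ 2)| ≤ 2 * ρ ^ 2 / |y| ^ 3 ∧
      |1 / (q * (y - δ)) - 1 / y ^ 2| ≤ 11 * ρ / |y| ^ 3 := by
  have hy0 : 0 < |y| := by linarith
  have hyne : y ≠ 0 := abs_pos.1 hy0
  have hY1 : 2 / 5 * |y| ≤ |y - δ| := by
    have := abs_sub_abs_le_abs_sub y δ
    nlinarith
  have hY2 : |y - δ| ≤ 8 / 5 * |y| := by
    have := abs_sub y δ
    nlinarith
  have hYpos : 0 < |y - δ| := by nlinarith
  have hYne : y - δ ≠ 0 := abs_pos.1 hYpos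
  have h1 : |1 / q - 1 / (y - δ)| ≤ k ^ 2 / |y - δ| ^ 3 :=
    inv_aux (by nlinarith) hk hq hs
  have h2 : k ^ 2 / |y - δ| ^ 3 ≤ (1 / 50) * ρ ^ 2 / |y| ^ 3 := by
    rw [div_le_div_iff₀ (by positivity) (by positivity)]
    have h3 : (2 / 5 * |y|) ^ 3 ≤ |y - δ| ^ 3 := by gcongr
    have h4 : k ^ 2 ≤ (ρ / 40) ^ 2 := by gcongr
    calc k ^ 2 * |y| ^ 3 ≤ (ρ / 40) ^ 2 * |y| ^ 3 := by gcongr
      _ ≤ 1 / 50 * ρ ^ 2 * (2 / 5 * |y|) ^ 3 := by
          have : 0 < ρ ^ 2 * |y| ^ 3 := by positivity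
          nlinarith
      _ ≤ 1 / 50 * ρ ^ 2 * |y - δ| ^ 3 := by gcongr
  have hδ2 : δ ^ 2 ≤ (3 / 5 * ρ) ^ 2 := by
    rw [← sq_abs δ]
    gcongr
  constructor
  · have e : 1 / (y - δ) - (1 / y + δ / y ^ 2) = δ ^ 2 / ((y - δ) * y ^ 2) := by
      field_simp
      ring
    have h5 : |1 / (y - δ) - (1 / y + δ / y ^ 2)| ≤ (9 / 10) * ρ ^ 2 / |y| ^ 3 := by
      rw [e, abs_div, abs_mul, abs_of_nonneg (sq_nonneg δ), abs_pow, div_le_div_iff₀ (by positivity)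
        (by positivity)]
      calc δ ^ 2 * |y| ^ 3 ≤ (3 / 5 * ρ) ^ 2 * |y| ^ 3 := by gcongr
        _ = 9 / 10 * ρ ^ 2 * (2 / 5 * |y| * |y| ^ 2) := by ring
        _ ≤ 9 / 10 * ρ ^ 2 * (|y - δ| * |y| ^ 2) := by gcongr
    have e3 : 1 / q - (1 / y + δ / y ^ 2) = (1 / q - 1 / (y - δ)) +
        (1 / (y - δ) - (1 / y + δ / y ^ 2)) := by ring
    rw [e3]
    refine (abs_add_le _ _).trans ?_
    have h6 : 1 / 50 * ρ ^ 2 / |y| ^ 3 + 9 / 10 * ρ ^ 2 / |y| ^ 3 ≤ 2 * ρ ^ 2 / |y| ^ 3 := by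
      rw [← add_div]
      gcongr
      nlinarith [sq_nonneg ρ]
    linarith
  · have h7 : |1 / (q * (y - δ)) - 1 / (y - δ) ^ 2| ≤ (1 / 20) * ρ / |y| ^ 3 := by
      have e : 1 / (q * (y - δ)) - 1 / (y - δ) ^ 2 = (1 / q - 1 / (y - δ)) * (1 / (y - δ)) := by
        rw [sub_mul, one_div_mul_one_div, one_div_mul_one_div, sq]
      rw [e, abs_mul, abs_div, abs_one]
      have h8 : 1 / |y - δ| ≤ 5 / 2 / ρ := by
        rw [div_le_div_iff₀ hYpos hρ]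
        nlinarith
      calc |1 / q - 1 / (y - δ)| * (1 / |y - δ|) ≤ (1 / 50 * ρ ^ 2 / |y| ^ 3) * (5 / 2 / ρ) := by
            gcongr
            exact h1.trans h2
        _ = 1 / 20 * ρ / |y| ^ 3 := by
            field_simp
            norm_num
    have h9 : |1 / (y - δ) ^ 2 - 1 / y ^ 2| ≤ (39 / 4) * ρ / |y| ^ 3 := by
      have e : 1 / (y - δ) ^ 2 - 1 / y ^ 2 = δ * (y + (y - δ)) / ((y - δ) ^ 2 * y ^ 2) := by
        field_simp
        ring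
      rw [e, abs_div, abs_mul, abs_mul, abs_pow, abs_pow, div_le_div_iff₀ (by positivity)
        (by positivity)]
      have h10 : |y + (y - δ)| ≤ 13 / 5 * |y| := by
        have := abs_add_le y (y - δ)
        linarith
      calc |δ| * |y + (y - δ)| * |y| ^ 3 ≤ 3 / 5 * ρ * (13 / 5 * |y|) * |y| ^ 3 := by gcongr
        _ = 39 / 4 * ρ * ((2 / 5 * |y|) ^ 2 * |y| ^ 2) := by ring
        _ ≤ 39 / 4 * ρ * (|y - δ| ^ 2 * |y| ^ 2) := by gcongr
    have e3 : 1 / (q * (y - δ)) - 1 / y ^ 2 = (1 / (q * (y - δ)) - 1 / (y - δ) ^ 2) +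
        (1 / (y - δ) ^ 2 - 1 / y ^ 2) := by ring
    rw [e3]
    refine (abs_add_le _ _).trans ?_
    have h6 : 1 / 20 * ρ / |y| ^ 3 + 39 / 4 * ρ / |y| ^ 3 ≤ 11 * ρ / |y| ^ 3 := by
      rw [← add_div]
      gcongr
      nlinarith
    linarith

/-- expansion of the inverse square root; `r = q(t) / q(c)` -/
theorem inv_sqrt_aux {r η : ℝ} (hr : 0 < r) (h : r ^ 2 = 1 + η) (hη : |η| ≤ 1 / 2) :
    |1 / r - 1 + η / 2| ≤ η ^ 2 := by
  have hη' := abs_le.1 hη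
  have hr2 : (7 / 10 : ℝ) ≤ r := by
    by_contra h1
    have : r < 7 / 10 := not_le.1 h1
    nlinarith [hη'.1]
  have e1 : η = r ^ 2 - 1 := by linarith
  have e2 : 1 / r - 1 + η / 2 = (1 - r) ^ 2 * (2 + r) / (2 * r) := by
    rw [e1]
    field_simp
    ring
  rw [e2, abs_of_nonneg (by positivity), div_le_iff₀ (by positivity), e1]
  have e3 : (r ^ 2 - 1) ^ 2 * (2 * r) = (1 - r) ^ 2 * ((1 + r) ^ 2 * (2 * r)) := by ring
  rw [e3]
  refine mul_le_mul_of_nonneg_left ?_ (sq_nonneg _)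
  nlinarith [mul_pos hr hr]

/-- first order expansion of `q(c) / q(t)`: `X = c - c0`, `h`, `k` half lengths, `τ = t - c` -/
theorem phi_aux {X h k τ E qc qt : ℝ} (hh : 0 ≤ h) (hk : 0 < k) (hE : 0 < E) (hXE : X = h + E)
    (hkE : 6 * k ≤ E) (hτ : |τ| ≤ k) (hqc : 0 < qc) (hqt : 0 < qt) (h1 : qc ^ 2 = X ^ 2 - h ^ 2)
    (h2 : qt ^ 2 = (X + τ) ^ 2 - h ^ 2) :
    |qc / qt - 1 + X / (X ^ 2 - h ^ 2) * τ| ≤ 19 / 2 * (k ^ 2 / E ^ 2) := by
  have hy : 0 < X ^ 2 - h ^ 2 := by rw [← h1]; positivity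
  have hX : 0 < X := by linarith
  set Yc := X ^ 2 - h ^ 2 with hYc
  have hYE : E ^ 2 ≤ Yc := by
    rw [hYc, hXE]
    nlinarith
  have hXY : X / Yc ≤ 1 / E := by
    rw [div_le_div_iff₀ hy hE, hYc, hXE]
    nlinarith
  have hY1 : 1 / Yc ≤ 1 / E ^ 2 := one_div_le_one_div_of_le (by positivity) hYE
  have hη : (qt / qc) ^ 2 = 1 + (2 * X * τ + τ ^ 2) / Yc := by
    rw [div_pow, h1, h2, eq_comm, ← sub_eq_zero]
    field_simp
    rw [hYc]
    ring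
  have hτ2 : τ ^ 2 ≤ k ^ 2 := by
    rw [← sq_abs τ]
    gcongr
  have hkE1 : k / E ≤ 1 / 6 := by
    rw [div_le_div_iff₀ hE (by norm_num)]
    linarith
  have hkE0 : 0 < k / E := by positivity
  have hη1 : |(2 * X * τ + τ ^ 2) / Yc| ≤ 3 * (k / E) := by
    have e : (2 * X * τ + τ ^ 2) / Yc = 2 * (X / Yc) * τ + (1 / Yc) * τ ^ 2 := by
      field_simp
    rw [e]
    refine (abs_add_le _ _).trans ?_
    have a1 : |2 * (X / Yc) * τ| ≤ 2 * (1 / E) * k := by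
      rw [abs_mul, abs_of_nonneg (by positivity)]
      gcongr
    have a2 : |(1 / Yc) * τ ^ 2| ≤ (1 / E ^ 2) * k ^ 2 := by
      rw [abs_of_nonneg (by positivity)]
      gcongr
    have a3 : (1 / E ^ 2) * k ^ 2 = (k / E) * (k / E) := by
      field_simp
    have a4 : 2 * (1 / E) * k = 2 * (k / E) := by ring
    rw [a3] at a2
    rw [a4] at a1
    nlinarith
  have h3 := inv_sqrt_aux (r := qt / qc) (by positivity) hη (by linarith)
  rw [one_div_div] at h3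
  have e5 : qc / qt - 1 + X / Yc * τ = (qc / qt - 1 + (2 * X * τ + τ ^ 2) / Yc / 2) -
      (1 / Yc) * τ ^ 2 / 2 := by
    field_simp
    ring
  rw [e5]
  refine (abs_sub _ _).trans ?_
  have a5 : |(1 / Yc) * τ ^ 2 / 2| ≤ (k ^ 2 / E ^ 2) / 2 := by
    rw [abs_of_nonneg (by positivity)]
    have : (1 / Yc) * τ ^ 2 ≤ (1 / E ^ 2) * k ^ 2 := by gcongr
    have e6 : (1 / E ^ 2) * k ^ 2 = k ^ 2 / E ^ 2 := by ring
    linarith
  have a6 : ((2 * X * τ + τ ^ 2) / Yc) ^ 2 ≤ 9 * (k ^ 2 / E ^ 2) := by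
    rw [← sq_abs]
    calc |(2 * X * τ + τ ^ 2) / Yc| ^ 2 ≤ (3 * (k / E)) ^ 2 := by gcongr
      _ = 9 * (k ^ 2 / E ^ 2) := by
          rw [mul_pow, div_pow]
          norm_num
  linarith

end Pool.Agent.Helper95.CV.Q10
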