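import Pool.Agent.Helper95.CV.Q10a

set_option autoImplicit false

/-! # Module Q10, part 2: integrals over the near and the far part of the line -/

namespace Pool.Agent.Helper95.CV.Q10

open MeasureTheory Set Pool.Agent.Helper36.CV

open Complex (I)

theorem far_abs {x ρ t : ℝ} (ht : t ∈ (Icc (x - ρ) (x + ρ))ᶜ) : ρ < |t - x| := by
  by_contra h
  have := abs_le.1 (not_lt.1 h)
  exact ht ⟨by linarith [this.1], by linarith [this.2]⟩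

theorem near_abs {x ρ t : ℝ} (ht : t ∈ Icc (x - ρ) (x + ρ)) : |t - x| ≤ ρ :=
  abs_le.2 ⟨by linarith [ht.1], by linarith [ht.2]⟩

theorem z_re (t x ρ : ℝ) : ((t : ℂ) - ((x : ℂ) + (ρ : ℂ) * I)).re = t - x := by simp

theorem z_im (t x ρ : ℝ) : ((t : ℂ) - ((x : ℂ) + (ρ : ℂ) * I)).im = -ρ := by simp

theorem z_low (t x : ℝ) {ρ : ℝ} (hρ : 0 < ρ) : ρ ≤ ‖(t : ℂ) - ((x : ℂ) + (ρ : ℂ) * I)‖ := by
  have := Complex.abs_im_le_norm ((t : ℂ) - ((x : ℂ) + (ρ : ℂ) * I))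
  rwa [z_im, abs_neg, abs_of_pos hρ] at this

theorem z_low' (t x ρ : ℝ) : |t - x| ≤ ‖(t : ℂ) - ((x : ℂ) + (ρ : ℂ) * I)‖ := by
  have := Complex.abs_re_le_norm ((t : ℂ) - ((x : ℂ) + (ρ : ℂ) * I))
  rwa [z_re] at this

theorem z_up (t x : ℝ) {ρ : ℝ} (hρ : 0 < ρ) :
    ‖(t : ℂ) - ((x : ℂ) + (ρ : ℂ) * I)‖ ≤ |t - x| + ρ := by
  have := Complex.norm_le_abs_re_add_abs_im ((t : ℂ) - ((x : ℂ) + (ρ : ℂ) * I))
  rwa [z_re, z_im, abs_neg, abs_of_pos hρ] at this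

theorem z_ne (t x : ℝ) {ρ : ℝ} (hρ : 0 < ρ) : (t : ℂ) - ((x : ℂ) + (ρ : ℂ) * I) ≠ 0 := by
  intro h
  have := z_low t x hρ
  rw [h, norm_zero] at this
  linarith

section
variable {w : ℝ → ℝ} {x ρ : ℝ}

theorem meas (hρ : 0 < ρ)
    (h : Integrable fun t : ℝ => ((w t : ℝ) : ℂ) / ((t : ℂ) - ((x : ℂ) + (ρ : ℂ) * I))) :
    AEStronglyMeasurable w volume := by
  have h1 : AEStronglyMeasurable (fun t : ℝ => ((w t : ℝ) : ℂ) /
      ((t : ℂ) - ((x : ℂ) + (ρ : ℂ) * I)) * ((t : ℂ) - ((x : ℂ) + (ρ : ℂ) * I))) volume :=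
    h.aestronglyMeasurable.mul (by fun_prop : Continuous fun t : ℝ =>
      ((t : ℂ) - ((x : ℂ) + (ρ : ℂ) * I))).aestronglyMeasurable
  have h2 := Complex.continuous_re.comp_aestronglyMeasurable h1
  refine h2.congr (ae_of_all _ fun t => ?_)
  simp only
  rw [div_mul_cancel₀ _ (z_ne t x hρ), Complex.ofReal_re]

theorem far_int (hρ : 0 < ρ)
    (h : Integrable fun t : ℝ => ((w t : ℝ) : ℂ) / ((t : ℂ) - ((x : ℂ) + (ρ : ℂ) * I)))
    {k : ℕ} (hk : 1 ≤ k) : IntegrableOn (fun t => w t / (t - x) ^ k) (Icc (x - ρ) (x + ρ))ᶜ := by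
  have hm := meas hρ h
  refine Integrable.mono' (g := fun t : ℝ => 2 / ρ ^ (k - 1) *
    ‖((w t : ℝ) : ℂ) / ((t : ℂ) - ((x : ℂ) + (ρ : ℂ) * I))‖) (h.norm.const_mul _).integrableOn ?_ ?_
  · exact (hm.aemeasurable.div (by fun_prop : Measurable fun t : ℝ =>
      (t - x) ^ k).aemeasurable).aestronglyMeasurable.restrict
  · refine (ae_restrict_iff' measurableSet_Icc.compl).2 (ae_of_all _ fun t ht => ?_)
    have h1 := far_abs ht
    have h2 := z_up t x hρ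
    have h3 := z_low t x hρ
    have h4 : 0 < ‖(t : ℂ) - ((x : ℂ) + (ρ : ℂ) * I)‖ := by linarith
    rw [norm_div, norm_div, norm_pow, Complex.norm_real, Real.norm_eq_abs, Real.norm_eq_abs]
    have h5 : ρ ^ (k - 1) * (‖(t : ℂ) - ((x : ℂ) + (ρ : ℂ) * I)‖ / 2) ≤ |t - x| ^ k := by
      obtain ⟨j, rfl⟩ : ∃ j, k = j + 1 := ⟨k - 1, by omega⟩
      rw [Nat.add_sub_cancel, pow_succ]
      gcongr
      linarith
    calc |w t| / |t - x| ^ k ≤ |w t| / (ρ ^ (k - 1) *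
          (‖(t : ℂ) - ((x : ℂ) + (ρ : ℂ) * I)‖ / 2)) := by gcongr
      _ = 2 / ρ ^ (k - 1) * (|w t| / ‖(t : ℂ) - ((x : ℂ) + (ρ : ℂ) * I)‖) := by
          field_simp

theorem far_int_abs (hρ : 0 < ρ)
    (h : Integrable fun t : ℝ => ((w t : ℝ) : ℂ) / ((t : ℂ) - ((x : ℂ) + (ρ : ℂ) * I)))
    {k : ℕ} (hk : 1 ≤ k) :
    IntegrableOn (fun t => |w t| / |t - x| ^ k) (Icc (x - ρ) (x + ρ))ᶜ := by
  refine (far_int hρ h hk).abs.congr (ae_of_all _ fun t => ?_)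
  simp only
  rw [abs_div, abs_pow]

theorem near_int (hρ : 0 < ρ)
    (h : Integrable fun t : ℝ => ((w t : ℝ) : ℂ) / ((t : ℂ) - ((x : ℂ) + (ρ : ℂ) * I))) :
    IntegrableOn w (Icc (x - ρ) (x + ρ)) := by
  have hm := meas hρ h
  refine Integrable.mono' (g := fun t : ℝ => (2 * ρ) *
    ‖((w t : ℝ) : ℂ) / ((t : ℂ) - ((x : ℂ) + (ρ : ℂ) * I))‖) (h.norm.const_mul _).integrableOn
    hm.restrict ?_
  refine (ae_restrict_iff' measurableSet_Icc).2 (ae_of_all _ fun t ht => ?_)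
  have h1 := near_abs ht
  have h2 := z_up t x hρ
  have h3 := z_low t x hρ
  have h4 : 0 < ‖(t : ℂ) - ((x : ℂ) + (ρ : ℂ) * I)‖ := by linarith
  rw [norm_div, Complex.norm_real, Real.norm_eq_abs, ← mul_div_assoc, le_div_iff₀ h4]
  have h5 : ‖(t : ℂ) - ((x : ℂ) + (ρ : ℂ) * I)‖ ≤ 2 * ρ := by linarith
  have h6 := abs_nonneg (w t)
  nlinarith

/-- the amplitude at `x + i ρ` against the far part at `x` -/
theorem g_close (hρ : 0 < ρ)
    (h : Integrable fun t : ℝ => ((w t : ℝ) : ℂ) / ((t : ℂ) - ((x : ℂ) + (ρ : ℂ) * I))) :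
    ‖((1 / Real.pi : ℝ) : ℂ) * (∫ t : ℝ, ((w t : ℝ) : ℂ) / ((t : ℂ) - ((x : ℂ) + (ρ : ℂ) * I))) -
      ((1 / Real.pi * ∫ t in (Icc (x - ρ) (x + ρ))ᶜ, w t / (t - x) ^ 1 : ℝ) : ℂ)‖ ≤
      (1 / Real.pi) * ((∫ t in Icc (x - ρ) (x + ρ), |w t|) / ρ +
        ρ * ∫ t in (Icc (x - ρ) (x + ρ))ᶜ, |w t| / |t - x| ^ 2) := by
  have hpi := Real.pi_pos
  have e0 : (((∫ t in (Icc (x - ρ) (x + ρ))ᶜ, w t / (t - x) ^ 1 : ℝ) : ℝ) : ℂ) =
      ∫ t in (Icc (x - ρ) (x + ρ))ᶜ, ((w t / (t - x) ^ 1 : ℝ) : ℂ) := integral_ofReal.symm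
  have e1 : ((1 / Real.pi : ℝ) : ℂ) *
      (∫ t : ℝ, ((w t : ℝ) : ℂ) / ((t : ℂ) - ((x : ℂ) + (ρ : ℂ) * I))) -
      ((1 / Real.pi * ∫ t in (Icc (x - ρ) (x + ρ))ᶜ, w t / (t - x) ^ 1 : ℝ) : ℂ) =
      ((1 / Real.pi : ℝ) : ℂ) *
        ((∫ t in Icc (x - ρ) (x + ρ), ((w t : ℝ) : ℂ) / ((t : ℂ) - ((x : ℂ) + (ρ : ℂ) * I))) +
        ∫ t in (Icc (x - ρ) (x + ρ))ᶜ, (((w t : ℝ) : ℂ) / ((t : ℂ) - ((x : ℂ) + (ρ : ℂ) * I)) -
          ((w t / (t - x) ^ 1 : ℝ) : ℂ))) := by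
    have i1 : IntegrableOn (fun t : ℝ => ((w t / (t - x) ^ 1 : ℝ) : ℂ)) (Icc (x - ρ) (x + ρ))ᶜ :=
      (far_int hρ h (le_refl 1)).ofReal
    have e3 : (∫ t in (Icc (x - ρ) (x + ρ))ᶜ, (((w t : ℝ) : ℂ) / ((t : ℂ) -
        ((x : ℂ) + (ρ : ℂ) * I)) - ((w t / (t - x) ^ 1 : ℝ) : ℂ))) =
        (∫ t in (Icc (x - ρ) (x + ρ))ᶜ, ((w t : ℝ) : ℂ) / ((t : ℂ) - ((x : ℂ) + (ρ : ℂ) * I))) -
          ∫ t in (Icc (x - ρ) (x + ρ))ᶜ, ((w t / (t - x) ^ 1 : ℝ) : ℂ) :=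
      integral_sub h.integrableOn i1
    rw [Complex.ofReal_mul, e0, e3,
      ← integral_add_compl (measurableSet_Icc (a := x - ρ) (b := x + ρ)) h]
    ring
  rw [e1, norm_mul, Complex.norm_real, Real.norm_eq_abs, abs_of_pos (by positivity)]
  refine mul_le_mul_of_nonneg_left ?_ (by positivity)
  refine (norm_add_le _ _).trans (add_le_add ?_ ?_)
  · rw [← integral_div]
    refine norm_integral_le_of_norm_le ((near_int hρ h).abs.div_const ρ) ?_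
    refine ae_of_all _ fun t => ?_
    rw [norm_div, Complex.norm_real, Real.norm_eq_abs]
    have h3 := z_low t x hρ
    gcongr
  · rw [← integral_const_mul]
    refine norm_integral_le_of_norm_le ((far_int_abs hρ h (k := 2) (by norm_num)).const_mul ρ) ?_
    refine (ae_restrict_iff' measurableSet_Icc.compl).2 (ae_of_all _ fun t ht => ?_)
    have h1 := far_abs ht
    have h3 := z_low' t x ρ
    have h4 : 0 < |t - x| := by linarith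
    have h5 : t - x ≠ 0 := abs_pos.1 h4
    have hz := z_ne t x hρ
    have h6 : (t : ℂ) - (x : ℂ) ≠ 0 := by
      rw [← Complex.ofReal_sub]
      exact Complex.ofReal_ne_zero.2 h5
    have e : ((w t : ℝ) : ℂ) / ((t : ℂ) - ((x : ℂ) + (ρ : ℂ) * I)) -
        ((w t / (t - x) ^ 1 : ℝ) : ℂ) =
        (w t : ℂ) * ((ρ : ℂ) * I) / (((t : ℂ) - ((x : ℂ) + (ρ : ℂ) * I)) * ((t : ℂ) - x)) := by
      push_cast
      rw [pow_one]
      field_simp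
      ring
    rw [e, norm_div, norm_mul, norm_mul, norm_mul, Complex.norm_I, Complex.norm_real,
      Complex.norm_real, Real.norm_eq_abs, Real.norm_eq_abs, abs_of_pos hρ, ← Complex.ofReal_sub,
      Complex.norm_real, Real.norm_eq_abs, mul_one]
    have h7 : |t - x| * |t - x| ≤ ‖(t : ℂ) - ((x : ℂ) + (ρ : ℂ) * I)‖ * |t - x| := by gcongr
    calc |w t| * ρ / (‖(t : ℂ) - ((x : ℂ) + (ρ : ℂ) * I)‖ * |t - x|) ≤
          |w t| * ρ / (|t - x| * |t - x|) := by gcongr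
      _ = ρ * (|w t| / |t - x| ^ 2) := by
          rw [sq]
          ring

/-- the first identity, split into near and far part -/
theorem id1 (hρ : 0 < ρ)
    (h : Integrable fun t : ℝ => ((w t : ℝ) : ℂ) / ((t : ℂ) - ((x : ℂ) + (ρ : ℂ) * I)))
    {q u : ℝ → ℝ} {δ m : ℝ} (hI : Integrable fun t => w t / q t)
    (hf : ∀ t ∈ (Icc (x - ρ) (x + ρ))ᶜ,
      |1 / q t - (1 / (t - x) + δ / (t - x) ^ 2)| ≤ 2 * ρ ^ 2 / |t - x| ^ 3)
    (hn : ∀ t ∈ Icc (x - ρ) (x + ρ), |w t / q t| ≤ (1 / m) * u t)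
    (hu : IntegrableOn u (Icc (x - ρ) (x + ρ))) :
    |(∫ t, w t / q t) - ((∫ t in (Icc (x - ρ) (x + ρ))ᶜ, w t / (t - x) ^ 1) +
      δ * ∫ t in (Icc (x - ρ) (x + ρ))ᶜ, w t / (t - x) ^ 2)| ≤
      (1 / m) * (∫ t in Icc (x - ρ) (x + ρ), u t) +
        2 * ρ ^ 2 * ∫ t in (Icc (x - ρ) (x + ρ))ᶜ, |w t| / |t - x| ^ 3 := by
  have i1 := far_int hρ h (le_refl 1)
  have i2 := far_int hρ h (k := 2) (by norm_num)
  have e : (∫ t, w t / q t) - ((∫ t in (Icc (x - ρ) (x + ρ))ᶜ, w t / (t - x) ^ 1) +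
      δ * ∫ t in (Icc (x - ρ) (x + ρ))ᶜ, w t / (t - x) ^ 2) =
      (∫ t in Icc (x - ρ) (x + ρ), w t / q t) + ∫ t in (Icc (x - ρ) (x + ρ))ᶜ,
        (w t / q t - (w t / (t - x) ^ 1 + δ * (w t / (t - x) ^ 2))) := by
    have e3 : (∫ t in (Icc (x - ρ) (x + ρ))ᶜ,
        (w t / q t - (w t / (t - x) ^ 1 + δ * (w t / (t - x) ^ 2)))) =
        (∫ t in (Icc (x - ρ) (x + ρ))ᶜ, w t / q t) -
        ∫ t in (Icc (x - ρ) (x + ρ))ᶜ, (w t / (t - x) ^ 1 + δ * (w t / (t - x) ^ 2)) :=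
      integral_sub hI.integrableOn (i1.add (i2.const_mul δ))
    have e4 : (∫ t in (Icc (x - ρ) (x + ρ))ᶜ, (w t / (t - x) ^ 1 + δ * (w t / (t - x) ^ 2))) =
        (∫ t in (Icc (x - ρ) (x + ρ))ᶜ, w t / (t - x) ^ 1) +
        ∫ t in (Icc (x - ρ) (x + ρ))ᶜ, δ * (w t / (t - x) ^ 2) :=
      integral_add i1 (i2.const_mul δ)
    rw [← integral_add_compl (measurableSet_Icc (a := x - ρ) (b := x + ρ)) hI, e3, e4,
      integral_const_mul]
    ring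
  rw [e]
  refine (abs_add_le _ _).trans (add_le_add ?_ ?_)
  · rw [← integral_const_mul, ← Real.norm_eq_abs]
    refine norm_integral_le_of_norm_le (hu.const_mul _) ?_
    exact (ae_restrict_iff' measurableSet_Icc).2 (ae_of_all _ fun t ht => hn t ht)
  · rw [← integral_const_mul, ← Real.norm_eq_abs]
    refine norm_integral_le_of_norm_le ((far_int_abs hρ h (k := 3) (by norm_num)).const_mul _) ?_
    refine (ae_restrict_iff' measurableSet_Icc.compl).2 (ae_of_all _ fun t ht => ?_)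
    have h1 := hf t ht
    have e2 : w t / q t - (w t / (t - x) ^ 1 + δ * (w t / (t - x) ^ 2)) =
        w t * (1 / q t - (1 / (t - x) + δ / (t - x) ^ 2)) := by ring
    rw [Real.norm_eq_abs, e2, abs_mul]
    calc |w t| * |1 / q t - (1 / (t - x) + δ / (t - x) ^ 2)| ≤
          |w t| * (2 * ρ ^ 2 / |t - x| ^ 3) := by gcongr
      _ = 2 * ρ ^ 2 * (|w t| / |t - x| ^ 3) := by ring

/-- the second identity -/
theorem id2 (hρ : 0 < ρ)
    (h : Integrable fun t : ℝ => ((w t : ℝ) : ℂ) / ((t : ℂ) - ((x : ℂ) + (ρ : ℂ) * I)))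
    {q : ℝ → ℝ} (hI : Integrable fun t => w t / q t)
    (hf : ∀ t ∈ (Icc (x - ρ) (x + ρ))ᶜ, |1 / q t - 1 / (t - x) ^ 2| ≤ 11 * ρ / |t - x| ^ 3)
    (hn : ∀ t ∈ Icc (x - ρ) (x + ρ), 0 ≤ w t / q t) :
    (∫ t in (Icc (x - ρ) (x + ρ))ᶜ, w t / (t - x) ^ 2) -
      11 * ρ * (∫ t in (Icc (x - ρ) (x + ρ))ᶜ, |w t| / |t - x| ^ 3) ≤ ∫ t, w t / q t := by
  have i2 := far_int hρ h (k := 2) (by norm_num)
  have i3 := far_int_abs hρ h (k := 3) (by norm_num)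
  rw [← integral_add_compl (measurableSet_Icc (a := x - ρ) (b := x + ρ)) hI,
    ← integral_const_mul, ← integral_sub i2 (i3.const_mul _)]
  have h1 : 0 ≤ ∫ t in Icc (x - ρ) (x + ρ), w t / q t :=
    setIntegral_nonneg measurableSet_Icc fun t ht => hn t ht
  have h2 : (∫ t in (Icc (x - ρ) (x + ρ))ᶜ, (w t / (t - x) ^ 2 -
      11 * ρ * (|w t| / |t - x| ^ 3))) ≤ ∫ t in (Icc (x - ρ) (x + ρ))ᶜ, w t / q t := by
    refine setIntegral_mono_on (i2.sub (i3.const_mul _)) hI.integrableOn measurableSet_Icc.compl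
      fun t ht => ?_
    have h3 := hf t ht
    have h4 : |w t / q t - w t / (t - x) ^ 2| ≤ 11 * ρ * (|w t| / |t - x| ^ 3) := by
      have e2 : w t / q t - w t / (t - x) ^ 2 = w t * (1 / q t - 1 / (t - x) ^ 2) := by ring
      rw [e2, abs_mul]
      calc |w t| * |1 / q t - 1 / (t - x) ^ 2| ≤ |w t| * (11 * ρ / |t - x| ^ 3) := by gcongr
        _ = 11 * ρ * (|w t| / |t - x| ^ 3) := by ring
    linarith [(abs_le.1 h4).1]
  linarith

end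

end Pool.Agent.Helper95.CV.Q10
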