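import Pool.Agent.Helper95.CV.Q10b

set_option autoImplicit false

/-! # Module Q10, part 3: amplitude, geometry, tail integrals -/

namespace Pool.Agent.Helper95.CV.Q10

open MeasureTheory Set Pool.Agent.Helper36.CV

open Complex (I)

/-! ## the square root in the upper half plane -/

theorem qc_sq (a b : ℝ) (z : ℂ) : qc a b z ^ 2 = (z - a) * (z - b) := by
  unfold qc
  have h : ∀ w : ℂ, (w ^ (1 / 2 : ℂ)) ^ 2 = w := by
    intro w
    have := Complex.cpow_nat_inv_pow w (n := 2) (by norm_num)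
    rw [one_div]
    exact_mod_cast this
  rw [mul_pow, h, h]

theorem arg_pos {z : ℂ} (h : 0 < z.im) : 0 < z.arg ∧ z.arg < Real.pi := by
  have h1 : 0 ≤ z.arg := Complex.arg_nonneg_iff.2 h.le
  have h2 : z.arg ≤ Real.pi := Complex.arg_le_pi z
  refine ⟨lt_of_le_of_ne h1 fun h3 => ?_, lt_of_le_of_ne h2 fun h3 => ?_⟩
  · have := (Complex.arg_eq_zero_iff.1 h3.symm).2
    linarith
  · have := (Complex.arg_eq_pi_iff.1 h3).2
    linarith

theorem qc_im_pos {a b : ℝ} {z : ℂ} (hz : 0 < z.im) : 0 < (qc a b z).im := by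
  have ha : 0 < (z - a).im := by simpa using hz
  have hb : 0 < (z - b).im := by simpa using hz
  have ha0 : z - a ≠ 0 := fun h => by rw [h] at ha; simp at ha
  have hb0 : z - b ≠ 0 := fun h => by rw [h] at hb; simp at hb
  unfold qc
  rw [Complex.cpow_def_of_ne_zero ha0, Complex.cpow_def_of_ne_zero hb0, ← Complex.exp_add,
    Complex.exp_im]
  have e : (Complex.log (z - a) * (1 / 2) + Complex.log (z - b) * (1 / 2)).im =
      ((z - a).arg + (z - b).arg) / 2 := by
    rw [← add_mul, show (1 / 2 : ℂ) = ((1 / 2 : ℝ) : ℂ) by push_cast; rfl, Complex.im_mul_ofReal,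
      Complex.add_im, Complex.log_im, Complex.log_im]
    ring
  rw [e]
  have h1 := arg_pos ha
  have h2 := arg_pos hb
  exact mul_pos (Real.exp_pos _) (Real.sin_pos_of_pos_of_lt_pi (by linarith) (by linarith))

theorem qc_ne {a b : ℝ} {z : ℂ} (hz : 0 < z.im) : qc a b z ≠ 0 := by
  intro h
  have := qc_im_pos (a := a) (b := b) hz
  rw [h] at this
  simp at this

/-- the square root at `x + i D` where `x = b + D` -/
theorem qc_bounds {a b x D : ℝ} (hab : a < b) (hD : D = x - b) (hD0 : 0 < D) :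
    Real.sqrt (D * (D + (b - a))) ≤ ‖qc a b ((x : ℂ) + (D : ℂ) * I)‖ ∧
    ‖qc a b ((x : ℂ) + (D : ℂ) * I)‖ ≤ 3 / 2 * Real.sqrt (D * (D + (b - a))) ∧
    19 / 50 * ‖qc a b ((x : ℂ) + (D : ℂ) * I)‖ ≤ (qc a b ((x : ℂ) + (D : ℂ) * I)).im := by
  set s := b - a with hs
  have hs0 : 0 < s := sub_pos.2 hab
  set z : ℂ := (x : ℂ) + (D : ℂ) * I with hz
  have hzim : 0 < z.im := by simpa [hz] using hD0
  have him := qc_im_pos (a := a) (b := b) hzim
  set Q := qc a b z with hQ
  have hsq : Q ^ 2 = (z - a) * (z - b) := qc_sq a b z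
  set P := ‖Q‖ ^ 2 with hP
  have hP0 : 0 ≤ P := sq_nonneg _
  have hPsq : P ^ 2 = ((D + s) ^ 2 + D ^ 2) * (2 * D ^ 2) := by
    have e1 : P = ‖z - a‖ * ‖z - b‖ := by rw [hP, ← norm_pow, hsq, norm_mul]
    have e2 : ‖z - a‖ ^ 2 = (D + s) ^ 2 + D ^ 2 := by
      rw [← Complex.normSq_eq_norm_sq, Complex.normSq_apply]
      simp only [hz, Complex.sub_re, Complex.add_re, Complex.ofReal_re, Complex.mul_re, Complex.I_re,
        Complex.ofReal_im, Complex.I_im, Complex.sub_im, Complex.add_im, Complex.mul_im]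
      rw [hs, hD]
      ring
    have e3 : ‖z - b‖ ^ 2 = 2 * D ^ 2 := by
      rw [← Complex.normSq_eq_norm_sq, Complex.normSq_apply]
      simp only [hz, Complex.sub_re, Complex.add_re, Complex.ofReal_re, Complex.mul_re, Complex.I_re,
        Complex.ofReal_im, Complex.I_im, Complex.sub_im, Complex.add_im, Complex.mul_im]
      rw [hD]
      ring
    rw [e1, mul_pow, e2, e3]
  have hre : (Q ^ 2).re = s * D := by
    rw [hsq]
    simp only [hz, Complex.sub_re, Complex.add_re, Complex.ofReal_re, Complex.mul_re, Complex.I_re,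
      Complex.ofReal_im, Complex.I_im, Complex.sub_im, Complex.add_im, Complex.mul_im]
    rw [hs, hD]
    ring
  have hre2 : (Q ^ 2).re = P - 2 * Q.im ^ 2 := by
    rw [hP, ← Complex.normSq_eq_norm_sq, Complex.normSq_apply, sq, Complex.mul_re]
    ring
  have hsD : 0 < s * D := by positivity
  have hlow : 7 / 5 * (D * (D + s)) ≤ P := by
    have h1 : (7 / 5 * (D * (D + s))) ^ 2 ≤ P ^ 2 := by
      rw [hPsq]
      nlinarith [mul_pos hD0 hD0, mul_pos (mul_pos hD0 hD0) (mul_pos hs0 hs0),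
        mul_pos (mul_pos hD0 hD0) (mul_pos hD0 hD0), mul_pos (mul_pos hD0 hD0) (mul_pos hD0 hs0)]
    exact abs_le_of_sq_le_sq' h1 hP0 |>.2
  have hlow' : 707 / 500 * (D * (D + s)) ≤ P := by
    have h1 : (707 / 500 * (D * (D + s))) ^ 2 ≤ P ^ 2 := by
      rw [hPsq]
      nlinarith [mul_pos hD0 hD0, mul_pos (mul_pos hD0 hD0) (mul_pos hs0 hs0),
        mul_pos (mul_pos hD0 hD0) (mul_pos hD0 hD0), mul_pos (mul_pos hD0 hD0) (mul_pos hD0 hs0)]
    exact abs_le_of_sq_le_sq' h1 hP0 |>.2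
  have hup : P ≤ 2 * (D * (D + s)) := by
    have h1 : P ^ 2 ≤ (2 * (D * (D + s))) ^ 2 := by
      rw [hPsq]
      nlinarith [mul_pos hD0 hD0, mul_pos (mul_pos hD0 hD0) (mul_pos hs0 hs0),
        mul_pos (mul_pos hD0 hD0) (mul_pos hD0 hD0), mul_pos (mul_pos hD0 hD0) (mul_pos hD0 hs0)]
    exact abs_le_of_sq_le_sq' h1 (by positivity) |>.2
  have hDs : 0 ≤ D * (D + s) := by positivity
  refine ⟨?_, ?_, ?_⟩
  · refine Real.sqrt_le_iff.2 ⟨norm_nonneg _, ?_⟩
    change D * (D + s) ≤ P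
    linarith
  · have h1 : ‖Q‖ ^ 2 ≤ (3 / 2 * Real.sqrt (D * (D + s))) ^ 2 := by
      rw [mul_pow, Real.sq_sqrt hDs]
      change P ≤ _
      nlinarith
    exact abs_le_of_sq_le_sq' h1 (by positivity) |>.2
  · have h1 : (19 / 50 * ‖Q‖) ^ 2 ≤ Q.im ^ 2 := by
      rw [mul_pow]
      change (19 / 50) ^ 2 * P ≤ _
      have h2 : 2 * Q.im ^ 2 = P - s * D := by linarith
      have h3 : s * D ≤ 500 / 707 * P := by
        have : s * D ≤ D * (D + s) := by nlinarith
        nlinarith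
      nlinarith
    exact abs_le_of_sq_le_sq' h1 him.le |>.2

/-- `Y` at height `D` against the amplitude -/
theorem amp {Hm Hp : ℝ} {C : Set ℝ} {cd : CD Hm Hp C} (V0 : Gap cd) {x D : ℝ} (hD : D = x - V0.b)
    (hD0 : 0 < D) :
    Yf cd x D ≤ 3 / 2 * ‖V0.g ((x : ℂ) + (D : ℂ) * I)‖ * Real.sqrt (D * (D + V0.s)) ∧
    (|(V0.g ((x : ℂ) + (D : ℂ) * I)).arg| ≤ 1 / 100 →
      ‖V0.g ((x : ℂ) + (D : ℂ) * I)‖ * Real.sqrt (D * (D + V0.s)) ≤ 3 * Yf cd x D) := by
  have hb := qc_bounds V0.lt hD hD0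
  have hzim : 0 < ((x : ℂ) + (D : ℂ) * I).im := by simpa using hD0
  set z : ℂ := (x : ℂ) + (D : ℂ) * I with hz
  have hQ0 : qc V0.a V0.b z ≠ 0 := qc_ne hzim
  have e : cd.f z - V0.N = V0.g z * qc V0.a V0.b z := by
    unfold Gap.g
    rw [div_mul_cancel₀ _ hQ0]
  have hY : Yf cd x D = (V0.g z * qc V0.a V0.b z).im := by
    rw [← e]
    simp [Yf, hz]
  change Real.sqrt (D * (D + V0.s)) ≤ _ ∧ _ ≤ 3 / 2 * Real.sqrt (D * (D + V0.s)) ∧ _ at hb
  obtain ⟨h1, h2, h3⟩ := hb
  set g := V0.g z with hg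
  set Q := qc V0.a V0.b z with hQ
  set q := Real.sqrt (D * (D + V0.s)) with hq
  constructor
  · rw [hY]
    calc (g * Q).im ≤ ‖g * Q‖ := (le_abs_self _).trans (Complex.abs_im_le_norm _)
      _ = ‖g‖ * ‖Q‖ := norm_mul _ _
      _ ≤ ‖g‖ * (3 / 2 * q) := by gcongr
      _ = 3 / 2 * ‖g‖ * q := by ring
  · intro harg
    rw [hY, Complex.mul_im]
    have c1 : g.re = ‖g‖ * Real.cos g.arg := (Complex.norm_mul_cos_arg g).symm
    have c2 : g.im = ‖g‖ * Real.sin g.arg := (Complex.norm_mul_sin_arg g).symm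
    have c3 : 9999 / 10000 ≤ Real.cos g.arg := by
      have := Real.one_sub_sq_div_two_le_cos (x := g.arg)
      have h4 : g.arg ^ 2 ≤ (1 / 100) ^ 2 := by
        rw [← sq_abs]
        gcongr
      linarith
    have c4 : |Real.sin g.arg| ≤ 1 / 100 := Real.abs_sin_le_abs.trans harg
    have c5 : |Q.re| ≤ ‖Q‖ := Complex.abs_re_le_norm Q
    have c6 : -(1 / 100 * ‖g‖ * ‖Q‖) ≤ g.im * Q.re := by
      have : |g.im * Q.re| ≤ 1 / 100 * ‖g‖ * ‖Q‖ := by
        rw [abs_mul, c2, abs_mul, abs_of_nonneg (norm_nonneg g)]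
        calc ‖g‖ * |Real.sin g.arg| * |Q.re| ≤ ‖g‖ * (1 / 100) * ‖Q‖ := by gcongr
          _ = 1 / 100 * ‖g‖ * ‖Q‖ := by ring
      linarith [(abs_le.1 this).1]
    have c7 : 9999 / 10000 * ‖g‖ * (19 / 50 * ‖Q‖) ≤ g.re * Q.im := by
      rw [c1]
      have : 9999 / 10000 * ‖g‖ ≤ ‖g‖ * Real.cos g.arg := by
        have := norm_nonneg g
        nlinarith
      have h5 := norm_nonneg g
      have h6 := norm_nonneg Q
      exact mul_le_mul this h3 (by positivity) (by nlinarith)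
    have h8 : ‖g‖ * q ≤ ‖g‖ * ‖Q‖ := by gcongr
    have h9 : 0 ≤ ‖g‖ * ‖Q‖ := by positivity
    nlinarith

/-! ## the tail integrals -/

theorem v_cont {Hm Hp : ℝ} {C : Set ℝ} (cd : CD Hm Hp C) : Continuous (vf cd) := by
  unfold vf
  have h : Continuous fun t : ℝ => cd.f (t : ℂ) :=
    cd.cont.comp_continuous Complex.continuous_ofReal fun t => by simp
  exact Complex.continuous_im.comp h

/-- an integral over the far part -/
theorem tail {Hm Hp : ℝ} {C : Set ℝ} (cd : CD Hm Hp C) {q0 : ℝ → ℝ} {x ρ D q S B : ℝ} {k : ℕ}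
    (hρ : 0 < ρ) (hq : 0 < q) (hk : 1 ≤ k)
    (h : Integrable fun t : ℝ => ((vf cd t / q0 t : ℝ) : ℂ) / ((t : ℂ) - ((x : ℂ) + (ρ : ℂ) * I)))
    (hq0 : ∀ t ∈ Icc (x - D / 2) (x + D / 2), q / 2 ≤ |q0 t|) (hS0 : 0 ≤ S)
    (hS : ρ ≤ D / 2 → ∫ t in Icc (x - D / 2) (x + D / 2) \ Icc (x - ρ) (x + ρ),
      vf cd t / |t - x| ^ k ≤ S)
    (hBi : IntegrableOn (fun t => vf cd t / (|q0 t| * |t - x| ^ k)) {t : ℝ | D / 2 < |t - x|})
    (hB : ∫ t in {t : ℝ | D / 2 < |t - x|}, vf cd t / (|q0 t| * |t - x| ^ k) ≤ B) :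
    ∫ t in (Icc (x - ρ) (x + ρ))ᶜ, |vf cd t / q0 t| / |t - x| ^ k ≤ 2 / q * S + B := by
  have hv0 : ∀ t, 0 ≤ vf cd t := fun t => cd.im_nonneg t
  have hfar := far_int_abs hρ h hk
  have hf : ∀ t, |vf cd t / q0 t| / |t - x| ^ k = vf cd t / (|q0 t| * |t - x| ^ k) := by
    intro t
    rw [abs_div, abs_of_nonneg (hv0 t), div_div]
  simp only [hf] at hfar ⊢
  set A1 := Icc (x - D / 2) (x + D / 2) \ Icc (x - ρ) (x + ρ) with hA1
  set A2 := (Icc (x - ρ) (x + ρ))ᶜ ∩ {t : ℝ | D / 2 < |t - x|} with hA2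
  have m1 : MeasurableSet A1 := measurableSet_Icc.diff measurableSet_Icc
  have m3 : MeasurableSet {t : ℝ | D / 2 < |t - x|} :=
    measurableSet_lt measurable_const (by fun_prop)
  have m2 : MeasurableSet A2 := measurableSet_Icc.compl.inter m3
  have hunion : (Icc (x - ρ) (x + ρ))ᶜ = A1 ∪ A2 := by
    ext t
    constructor
    · intro ht
      by_cases h1 : |t - x| ≤ D / 2
      · have := abs_le.1 h1
        exact Or.inl ⟨⟨by linarith [this.1], by linarith [this.2]⟩, ht⟩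
      · exact Or.inr ⟨ht, not_le.1 h1⟩
    · rintro (h1 | h1)
      · exact h1.2
      · exact h1.1
  have hdisj : Disjoint A1 A2 := by
    rw [Set.disjoint_left]
    intro t h1 h2
    have h3 : D / 2 < |t - x| := h2.2
    have h4 := near_abs (x := x) (ρ := D / 2) h1.1
    linarith
  rw [hunion] at hfar
  have i1 : IntegrableOn (fun t => vf cd t / (|q0 t| * |t - x| ^ k)) A1 :=
    hfar.mono_set subset_union_left
  have i2 : IntegrableOn (fun t => vf cd t / (|q0 t| * |t - x| ^ k)) A2 :=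
    hfar.mono_set subset_union_right
  rw [hunion, setIntegral_union hdisj m2 i1 i2]
  have b2 : ∫ t in A2, vf cd t / (|q0 t| * |t - x| ^ k) ≤ B := by
    refine le_trans ?_ hB
    refine setIntegral_mono_set hBi (ae_of_all _ fun t => ?_)
      (LE.le.eventuallyLE inter_subset_right)
    exact div_nonneg (hv0 t) (by positivity)
  have b1 : ∫ t in A1, vf cd t / (|q0 t| * |t - x| ^ k) ≤ 2 / q * S := by
    by_cases hcase : ρ ≤ D / 2
    · have i3 : IntegrableOn (fun t => vf cd t / |t - x| ^ k) A1 := by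
        obtain ⟨Mx, hMx⟩ := (isCompact_Icc (a := x - D / 2) (b := x + D / 2)).exists_bound_of_continuousOn
          (v_cont cd).continuousOn
        refine Measure.integrableOn_of_bounded (M := Mx / ρ ^ k) ?_ ?_ ?_
        · exact ((measure_mono sdiff_subset).trans_lt measure_Icc_lt_top).ne
        · exact ((v_cont cd).measurable.div (by fun_prop)).aestronglyMeasurable
        · refine (ae_restrict_iff' m1).2 (ae_of_all _ fun t ht => ?_)
          have h1 : ρ < |t - x| := far_abs ht.2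
          rw [norm_div, norm_pow, Real.norm_eq_abs |t - x|, abs_abs]
          have h2 := hMx t ht.1
          have h3 : 0 ≤ Mx := (norm_nonneg _).trans h2
          gcongr
      calc ∫ t in A1, vf cd t / (|q0 t| * |t - x| ^ k)
          ≤ ∫ t in A1, 2 / q * (vf cd t / |t - x| ^ k) := by
            refine setIntegral_mono_on i1 (i3.const_mul _) m1 fun t ht => ?_
            have h1 : ρ < |t - x| := far_abs ht.2
            have h4 : 0 < |t - x| := by linarith
            have h2 := hq0 t ht.1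
            have h3 := hv0 t
            calc vf cd t / (|q0 t| * |t - x| ^ k) ≤ vf cd t / (q / 2 * |t - x| ^ k) := by gcongr
              _ = 2 / q * (vf cd t / |t - x| ^ k) := by
                  field_simp
        _ = 2 / q * ∫ t in A1, vf cd t / |t - x| ^ k := integral_const_mul _ _
        _ ≤ 2 / q * S := by
            have := hS hcase
            gcongr
    · have hA : A1 = ∅ := by
        rw [hA1, sdiff_eq_empty]
        intro t ht
        exact ⟨by linarith [ht.1], by linarith [ht.2]⟩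
      rw [hA, setIntegral_empty]
      positivity
  linarith

end Pool.Agent.Helper95.CV.Q10
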