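import Pool.Agent.Helper95.CV.Q10c

set_option autoImplicit false

/-! # Module Q10, part 4: the law for one gap -/

namespace Pool.Agent.Helper95.CV.Q10

open MeasureTheory Set Pool.Agent.Helper36.CV

open Complex (I)

section
variable {Hm Hp : ℝ} {C : Set ℝ} {cd : CD Hm Hp C}

theorem q_low (V0 : Gap cd) {x r D t : ℝ} (hD : D = x - V0.b) (hr : r < D)
    (ht : x - r ≤ t) : Real.sqrt ((D - r) * (D - r + V0.s)) ≤ V0.q t := by
  have h1 : V0.b ≤ t := by linarith
  unfold Gap.q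
  rw [qr_eq h1]
  have hs : 0 < V0.s := sub_pos.2 V0.lt
  have e : t - V0.a = t - V0.b + V0.s := by
    unfold Gap.s
    ring
  refine Real.sqrt_le_sqrt ?_
  rw [e]
  nlinarith

theorem q_up (V0 : Gap cd) {x r D t : ℝ} (hD : D = x - V0.b) (ht : t ≤ x + r) (hbt : V0.b ≤ t) :
    V0.q t ≤ Real.sqrt ((D + r) * (D + r + V0.s)) := by
  unfold Gap.q
  rw [qr_eq hbt]
  have hs : 0 < V0.s := sub_pos.2 V0.lt
  have e : t - V0.a = t - V0.b + V0.s := by
    unfold Gap.s
    ring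
  refine Real.sqrt_le_sqrt ?_
  rw [e]
  nlinarith

theorem gap_law (V0 V : Gap cd) {x ρ D : ℝ} (hρ : 0 < ρ) (hD : D = x - V0.b)
    (hρD : 7 / 5 * ρ ≤ D)
    (hint : Integrable fun t : ℝ => ((vf cd t / V0.q t : ℝ) : ℂ) /
      ((t : ℂ) - ((x : ℂ) + (ρ : ℂ) * I)))
    (h4i : Integrable (fun t => vf cd t / (V0.q t * V.q t)))
    (h4 : (V.N - V0.N) * V.av (fun t => 1 / V0.q t) =
      (1 / Real.pi) * ∫ t : ℝ, vf cd t / (V0.q t * V.q t))
    (h5i : Integrable (fun t => vf cd t / (V0.q t * V.q t * (t - V.c))))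
    (h5 : V.kk = V0.q V.c * ((V.N - V0.N) * V0.av (fun t => 1 / ((t - V.c) * V.q t)) +
      (1 / Real.pi) * ∫ t : ℝ, vf cd t / (V0.q t * V.q t * (t - V.c))))
    (hVi : IntegrableOn (fun t => vf cd t / |V.q t|) (Icc (x - ρ) (x + ρ)))
    (ha : x - 3 / 5 * ρ ≤ V.a) (hb : V.b ≤ x + 3 / 5 * ρ) (hs : V.s ≤ ρ / 20)
    (hN : V0.N < V.N) :
    |V.N - V0.N - UU V0 x (1 / Real.pi * ∫ t in (Icc (x - ρ) (x + ρ))ᶜ,
        vf cd t / V0.q t / (t - x) ^ 1) (1 / Real.pi * ∫ t in (Icc (x - ρ) (x + ρ))ᶜ,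
        vf cd t / V0.q t / (t - x) ^ 2) V.c| ≤
      (V.N - V0.N) * (19 / 2 * ((V.s / 2) ^ 2 / (V.c - V0.b) ^ 2)) +
      (D + 3 / 5 * ρ) / (D - ρ) / Real.pi * nn x ρ V +
      10 / 7 * Real.sqrt (D * (D + V0.s)) * ρ ^ 2 *
        (∫ t in (Icc (x - ρ) (x + ρ))ᶜ, |vf cd t / V0.q t| / |t - x| ^ 3) ∧
    UD V0 x (1 / Real.pi * ∫ t in (Icc (x - ρ) (x + ρ))ᶜ,
        vf cd t / V0.q t / (t - x) ^ 1) (1 / Real.pi * ∫ t in (Icc (x - ρ) (x + ρ))ᶜ,
        vf cd t / V0.q t / (t - x) ^ 2) V.c -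
      5 / 4 * |V.N - V0.N - UU V0 x (1 / Real.pi * ∫ t in (Icc (x - ρ) (x + ρ))ᶜ,
        vf cd t / V0.q t / (t - x) ^ 1) (1 / Real.pi * ∫ t in (Icc (x - ρ) (x + ρ))ᶜ,
        vf cd t / V0.q t / (t - x) ^ 2) V.c| / ρ -
      40 / 7 * Real.sqrt (D * (D + V0.s)) * ρ *
        (∫ t in (Icc (x - ρ) (x + ρ))ᶜ, |vf cd t / V0.q t| / |t - x| ^ 3) ≤ V.kk := by
  have hpi := Real.pi_pos
  have hpi3 := Real.pi_gt_three
  set W1 := ∫ t in (Icc (x - ρ) (x + ρ))ᶜ, vf cd t / V0.q t / (t - x) ^ 1 with hW1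
  set W2 := ∫ t in (Icc (x - ρ) (x + ρ))ᶜ, vf cd t / V0.q t / (t - x) ^ 2 with hW2
  set T3 := ∫ t in (Icc (x - ρ) (x + ρ))ᶜ, |vf cd t / V0.q t| / |t - x| ^ 3 with hT3
  have hT30 : 0 ≤ T3 := integral_nonneg fun t => by positivity
  have hs0 : 0 < V0.s := sub_pos.2 V0.lt
  have hsV : 0 < V.s := sub_pos.2 V.lt
  have hD0 : 0 < D := by linarith
  have hDρ : 0 < D - ρ := by linarith
  have ca : V.a = V.c - V.s / 2 := by unfold Gap.c Gap.s; ring
  have cb : V.b = V.c + V.s / 2 := by unfold Gap.c Gap.s; ring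
  have ca0 : V0.a = V0.c - V0.s / 2 := by unfold Gap.c Gap.s; ring
  have cb0 : V0.b = V0.c + V0.s / 2 := by unfold Gap.c Gap.s; ring
  set E := V.c - V0.b with hE
  have hE1 : D - 3 / 5 * ρ ≤ E := by rw [hE, hD]; linarith
  have hE2 : E ≤ D + 3 / 5 * ρ := by rw [hE, hD]; linarith
  have hE0 : 4 / 5 * ρ ≤ E := by linarith
  have hEpos : 0 < E := by linarith
  set X := V.c - V0.c with hX
  have hXE : X = V0.s / 2 + E := by rw [hX, hE, cb0]; ring
  have hb0 : V0.b < V.c := by linarith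
  set qc := V0.q V.c with hqc
  have hqcpos : 0 < qc := qr_pos V0.lt.le hb0
  have hqc2 : qc ^ 2 = X ^ 2 - (V0.s / 2) ^ 2 := by
    have e : qc ^ 2 = (V.c - V0.a) * (V.c - V0.b) :=
      qr_sq (mul_nonneg (by linarith [V0.lt]) (by linarith))
    rw [e, ca0, cb0, hX]
    ring
  have hsqrt : Real.sqrt ((V.c - V0.c) ^ 2 - (V0.s / 2) ^ 2) = qc := by
    rw [← hX, ← hqc2, Real.sqrt_sq hqcpos.le]
  have hqt : ∀ t, V0.b < t → 0 < V0.q t := fun t ht => qr_pos V0.lt.le ht
  have hqt2 : ∀ t, V0.b ≤ t → V0.q t ^ 2 = (X + (t - V.c)) ^ 2 - (V0.s / 2) ^ 2 := by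
    intro t ht
    have e : V0.q t ^ 2 = (t - V0.a) * (t - V0.b) :=
      qr_sq (mul_nonneg (by linarith [V0.lt]) (by linarith))
    rw [e, ca0, cb0, hX]
    ring
  -- the average of 1 / q0 over V
  have hav : |qc * V.av (fun t => 1 / V0.q t) - 1| ≤
      19 / 2 * ((V.s / 2) ^ 2 / E ^ 2) := by
    have e : qc * V.av (fun t => 1 / V0.q t) =
        (1 / Real.pi) * ∫ t in V.a..V.b, qc / V0.q t / Real.sqrt ((t - V.a) * (V.b - t)) := by
      unfold Gap.av
      have e2 : (∫ t in V.a..V.b, qc / V0.q t / Real.sqrt ((t - V.a) * (V.b - t))) =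
          qc * ∫ t in V.a..V.b, 1 / V0.q t / Real.sqrt ((t - V.a) * (V.b - t)) := by
        rw [← intervalIntegral.integral_const_mul]
        refine intervalIntegral.integral_congr fun t _ => ?_
        ring
      rw [e2]
      ring
    rw [e]
    refine AV.av_near V.lt (κ := X / (X ^ 2 - (V0.s / 2) ^ 2)) ?_ fun t ht => ?_
    · have e3 : ContinuousOn (fun t => V0.q t) (Icc V.a V.b) := by
        have e4 : ContinuousOn (fun t => Real.sqrt ((t - V0.a) * (t - V0.b))) (Icc V.a V.b) := by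
          fun_prop
        refine e4.congr fun t ht => ?_
        exact qr_eq (by linarith [ht.1])
      exact continuousOn_const.div e3 fun t ht => (hqt t (by linarith [ht.1])).ne'
    · have ht1 : V0.b < t := by linarith [ht.1]
      have ht2 : |t - V.c| ≤ V.s / 2 :=
        abs_le.2 ⟨by linarith [ht.1], by linarith [ht.2]⟩
      exact phi_aux (by positivity) (by positivity) hEpos hXE (by linarith) ht2 hqcpos
        (hqt t ht1) hqc2 (hqt2 t ht1.le)
  -- the near bound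
  set m := Real.sqrt ((D - ρ) * (D - ρ + V0.s)) with hm
  have hmpos : 0 < m := Real.sqrt_pos.2 (by positivity)
  have hm2 : m ^ 2 = (D - ρ) * (D - ρ + V0.s) := Real.sq_sqrt (by positivity)
  have hwn : ∀ t ∈ Icc (x - ρ) (x + ρ), m ≤ V0.q t := fun t ht =>
    q_low V0 hD (by linarith) ht.1
  have hv0 : ∀ t, 0 ≤ vf cd t := fun t => cd.im_nonneg t
  have hδ : |V.c - x| ≤ 3 / 5 * ρ := abs_le.2 ⟨by linarith, by linarith⟩
  have hVq : ∀ t ∈ (Icc (x - ρ) (x + ρ))ᶜ,
      V.q t ^ 2 = (t - x - (V.c - x)) ^ 2 - (V.s / 2) ^ 2 := by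
    intro t ht
    have h1 := far_abs ht
    have h2 : 0 ≤ (t - V.a) * (t - V.b) := by
      rcases le_or_gt 0 (t - x) with h | h
      · rw [abs_of_nonneg h] at h1
        exact mul_nonneg (by linarith) (by linarith)
      · rw [abs_of_neg h] at h1
        exact mul_nonneg_of_nonpos_of_nonpos (by linarith) (by linarith)
    have e : V.q t ^ 2 = (t - V.a) * (t - V.b) := qr_sq h2
    rw [e, ca, cb]
    ring
  have hfar : ∀ t ∈ (Icc (x - ρ) (x + ρ))ᶜ,
      |1 / V.q t - (1 / (t - x) + (V.c - x) / (t - x) ^ 2)| ≤ 2 * ρ ^ 2 / |t - x| ^ 3 ∧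
      |1 / (V.q t * (t - V.c)) - 1 / (t - x) ^ 2| ≤ 11 * ρ / |t - x| ^ 3 := by
    intro t ht
    have h1 := far_abs ht
    have h3 : 0 ≤ V.q t * (t - x - (V.c - x)) := by
      rw [sub_sub_sub_cancel_right]
      exact qr_mul_nonneg V.lt.le
    have h2 := far_aux (y := t - x) (δ := V.c - x) (k := V.s / 2) (q := V.q t) hρ h1.le hδ
      (by positivity) (by linarith) (hVq t ht) h3
    rw [sub_sub_sub_cancel_right] at h2
    exact h2
  have i1 := id1 (w := fun t => vf cd t / V0.q t) (q := fun t => V.q t)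
    (u := fun t => vf cd t / |V.q t|) (δ := V.c - x) (m := m) hρ hint
    (by simpa only [div_div] using h4i) (fun t ht => (hfar t ht).1) (fun t ht => by
      rw [div_div, abs_div, abs_mul, abs_of_nonneg (hv0 t)]
      have h1 := hwn t ht
      have h2 : 0 < V0.q t := by linarith
      rw [abs_of_pos h2]
      have e : (1 / m) * (vf cd t / |V.q t|) = vf cd t / |V.q t| / m := by ring
      rw [e, mul_comm, ← div_div]
      have h3 : 0 ≤ vf cd t / |V.q t| := div_nonneg (hv0 t) (abs_nonneg _)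
      gcongr) hVi
  have i2 := id2 (w := fun t => vf cd t / V0.q t) (q := fun t => V.q t * (t - V.c)) hρ hint
    (by simpa only [div_div, ← mul_assoc] using h5i) (fun t ht => (hfar t ht).2) (fun t ht => by
      have h1 := hwn t ht
      have h2 : 0 < V0.q t := by linarith
      have h3 : 0 ≤ V.q t * (t - V.c) := qr_mul_nonneg V.lt.le
      exact div_nonneg (div_nonneg (hv0 t) h2.le) h3)
  have key1 : (∫ t, vf cd t / V0.q t / V.q t) = ∫ t, vf cd t / (V0.q t * V.q t) := by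
    simp only [div_div]
  have key2 : (∫ t, vf cd t / V0.q t / (V.q t * (t - V.c))) =
      ∫ t, vf cd t / (V0.q t * V.q t * (t - V.c)) := by
    simp only [div_div, mul_assoc]
  rw [key1, ← hW1, ← hW2, ← hT3] at i1
  rw [key2, ← hW2, ← hT3] at i2
  set q := Real.sqrt (D * (D + V0.s)) with hq
  have hq0 : 0 ≤ q := Real.sqrt_nonneg _
  set I4 := ∫ t, vf cd t / (V0.q t * V.q t) with hI4
  set I5 := ∫ t, vf cd t / (V0.q t * V.q t * (t - V.c)) with hI5
  have hnn : nn x ρ V = ∫ t in Icc (x - ρ) (x + ρ), vf cd t / |V.q t| := rfl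
  rw [← hnn] at i1
  have hnn0 : 0 ≤ nn x ρ V := setIntegral_nonneg measurableSet_Icc fun t _ =>
    div_nonneg (hv0 t) (abs_nonneg _)
  set dN := V.N - V0.N with hdN
  have hdNpos : 0 < dN := sub_pos.2 hN
  have hqc3 : qc ^ 2 = E * (E + V0.s) := by
    rw [hqc2, hXE]
    ring
  have hqcq : qc ≤ 10 / 7 * q := by
    have h1 : qc ^ 2 ≤ (10 / 7 * q) ^ 2 := by
      rw [mul_pow, hq, Real.sq_sqrt (by positivity), hqc3]
      have h2 : E ≤ 10 / 7 * D := by linarith
      have h3 : E + V0.s ≤ 10 / 7 * (D + V0.s) := by linarith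
      calc E * (E + V0.s) ≤ 10 / 7 * D * (10 / 7 * (D + V0.s)) := by gcongr
        _ = (10 / 7) ^ 2 * (D * (D + V0.s)) := by ring
    exact abs_le_of_sq_le_sq' h1 (by positivity) |>.2
  have hqcm : qc / m ≤ (D + 3 / 5 * ρ) / (D - ρ) := by
    rw [div_le_div_iff₀ hmpos hDρ]
    have h1 : (qc * (D - ρ)) ^ 2 ≤ ((D + 3 / 5 * ρ) * m) ^ 2 := by
      rw [mul_pow, mul_pow, hqc3, hm2]
      have h2 : E * (E + V0.s) ≤ (D + 3 / 5 * ρ) * (D + 3 / 5 * ρ + V0.s) := by gcongr
      calc E * (E + V0.s) * (D - ρ) ^ 2 ≤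
            (D + 3 / 5 * ρ) * (D + 3 / 5 * ρ + V0.s) * (D - ρ) ^ 2 := by gcongr
        _ = (D + 3 / 5 * ρ) * (D - ρ) * ((D + 3 / 5 * ρ + V0.s) * (D - ρ)) := by ring
        _ ≤ (D + 3 / 5 * ρ) * (D - ρ) * ((D - ρ + V0.s) * (D + 3 / 5 * ρ)) := by
            have h3 : (D + 3 / 5 * ρ + V0.s) * (D - ρ) ≤ (D - ρ + V0.s) * (D + 3 / 5 * ρ) := by
              linarith [mul_pos hρ hs0]
            gcongr
        _ = (D + 3 / 5 * ρ) ^ 2 * ((D - ρ) * (D - ρ + V0.s)) := by ring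
    exact abs_le_of_sq_le_sq' h1 (by positivity) |>.2
  have hUU : UU V0 x (1 / Real.pi * W1) (1 / Real.pi * W2) V.c =
      qc * (1 / Real.pi * (W1 + (V.c - x) * W2)) := by
    unfold UU
    rw [hsqrt]
    ring
  have hUD : UD V0 x (1 / Real.pi * W1) (1 / Real.pi * W2) V.c =
      X / qc ^ 2 * (qc * (1 / Real.pi * (W1 + (V.c - x) * W2))) + qc * (1 / Real.pi * W2) := by
    unfold UD
    rw [hsqrt, ← hX]
    field_simp
  have hXq : X / qc ^ 2 ≤ 5 / 4 / ρ := by
    have h1 : X / qc ^ 2 ≤ 1 / E := by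
      rw [div_le_div_iff₀ (by positivity) hEpos, hqc3, hXE]
      linarith [mul_pos hEpos hs0]
    have h2 : 1 / E ≤ 5 / 4 / ρ := by
      rw [div_le_div_iff₀ hEpos hρ]
      linarith
    exact h1.trans h2
  have hX0 : 0 < X := by rw [hXE]; positivity
  have hipi : 0 < 1 / Real.pi := by positivity
  have hipi1 : 1 / Real.pi * 2 ≤ 1 := by
    rw [div_mul_eq_mul_div, one_mul, div_le_one hpi]
    linarith
  have hipi2 : 1 / Real.pi * 11 ≤ 4 := by
    rw [div_mul_eq_mul_div, one_mul, div_le_iff₀ hpi]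
    linarith
  constructor
  · rw [hUU]
    have e : dN - qc * (1 / Real.pi * (W1 + (V.c - x) * W2)) =
        dN * -(qc * V.av (fun t => 1 / V0.q t) - 1) +
          qc * (1 / Real.pi) * (I4 - (W1 + (V.c - x) * W2)) := by
      have : dN * -(qc * V.av (fun t => 1 / V0.q t) - 1) =
          dN - qc * (dN * V.av (fun t => 1 / V0.q t)) := by ring
      rw [this, h4]
      ring
    rw [e]
    refine (abs_add_le _ _).trans ?_
    have b1 : |dN * -(qc * V.av (fun t => 1 / V0.q t) - 1)| ≤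
        dN * (19 / 2 * ((V.s / 2) ^ 2 / E ^ 2)) := by
      rw [abs_mul, abs_neg, abs_of_pos hdNpos]
      gcongr
    have b2 : |qc * (1 / Real.pi) * (I4 - (W1 + (V.c - x) * W2))| ≤
        (D + 3 / 5 * ρ) / (D - ρ) / Real.pi * nn x ρ V + 10 / 7 * q * ρ ^ 2 * T3 := by
      rw [abs_mul, abs_of_pos (by positivity : 0 < qc * (1 / Real.pi))]
      calc qc * (1 / Real.pi) * |I4 - (W1 + (V.c - x) * W2)| ≤
            qc * (1 / Real.pi) * (1 / m * nn x ρ V + 2 * ρ ^ 2 * T3) := by gcongr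
        _ = (qc / m) / Real.pi * nn x ρ V + qc * ρ ^ 2 * T3 * (1 / Real.pi * 2) := by
            field_simp
        _ ≤ (D + 3 / 5 * ρ) / (D - ρ) / Real.pi * nn x ρ V +
              10 / 7 * q * ρ ^ 2 * T3 * 1 := by gcongr
        _ = _ := by ring
    linarith
  · rw [hUU, hUD]
    have hav0 : X / (qc ^ 2 * qc) ≤ V0.av (fun t => 1 / ((t - V.c) * V.q t)) := by
      have hsq0 : Real.sqrt ((V.c - V0.a) * (V.c - V0.b)) = qc := (qr_eq hb0.le).symm
      have e1 : (V.c - V0.a) * (V.c - V0.b) = qc ^ 2 := by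
        rw [hqc3, hE]
        unfold Gap.s
        ring
      have h1 := (AV.int_sq V0.lt hb0).2
      rw [hsq0, e1] at h1
      have e2 : V.c - (V0.a + V0.b) / 2 = X := rfl
      rw [e2] at h1
      rw [← h1]
      have hneg : ∀ t ∈ Icc V0.a V0.b, V.q t = -Real.sqrt ((t - V.a) * (t - V.b)) := by
        intro t ht
        unfold Gap.q qr
        rw [if_neg (by linarith [ht.2, V.lt] : ¬ V.b ≤ t)]
      refine AV.av_mono V0.lt ?_ ?_ ?_
      · refine continuousOn_const.div (by fun_prop) fun t ht => ?_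
        have : 0 < V.c - t := by linarith [ht.2]
        positivity
      · have e4 : ContinuousOn (fun t => (t - V.c) * V.q t) (Icc V0.a V0.b) := by
          refine (by fun_prop : ContinuousOn (fun t => (t - V.c) *
            (-Real.sqrt ((t - V.a) * (t - V.b)))) (Icc V0.a V0.b)).congr fun t ht => ?_
          simp only
          rw [hneg t ht]
        refine continuousOn_const.div e4 fun t ht => ?_
        rw [hneg t ht]
        have h2 : 0 < (t - V.a) * (t - V.b) :=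
          mul_pos_of_neg_of_neg (by linarith [ht.2]) (by linarith [ht.2, V.lt])
        have h3 := Real.sqrt_pos.2 h2
        have h4 : t - V.c < 0 := by linarith [ht.2]
        exact (mul_pos_of_neg_of_neg h4 (by linarith)).ne'
      · intro t ht
        rw [hneg t ht]
        have h2 : 0 < (t - V.a) * (t - V.b) :=
          mul_pos_of_neg_of_neg (by linarith [ht.2]) (by linarith [ht.2, V.lt])
        have h3 := Real.sqrt_pos.2 h2
        have h4 : 0 < V.c - t := by linarith [ht.2]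
        have h5 : Real.sqrt ((t - V.a) * (t - V.b)) ≤ V.c - t := by
          refine Real.sqrt_le_iff.2 ⟨h4.le, ?_⟩
          rw [ca, cb]
          linarith [sq_nonneg V.s]
        have e5 : (t - V.c) * -Real.sqrt ((t - V.a) * (t - V.b)) =
            (V.c - t) * Real.sqrt ((t - V.a) * (t - V.b)) := by ring
        rw [e5]
        refine one_div_le_one_div_of_le (by positivity) ?_
        rw [sq]
        gcongr
    set G := 1 / Real.pi * (W1 + (V.c - x) * W2) with hG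
    have c1 : X / qc ^ 2 * dN + qc * (1 / Real.pi * W2) - 40 / 7 * q * ρ * T3 ≤ V.kk := by
      rw [h5]
      have c2 : dN * (X / (qc ^ 2 * qc)) ≤ dN * V0.av (fun t => 1 / ((t - V.c) * V.q t)) := by
        gcongr
      have c3 : 1 / Real.pi * (W2 - 11 * ρ * T3) ≤ 1 / Real.pi * I5 := by gcongr
      have c4 : qc * (dN * (X / (qc ^ 2 * qc)) + 1 / Real.pi * (W2 - 11 * ρ * T3)) ≤
          qc * (dN * V0.av (fun t => 1 / ((t - V.c) * V.q t)) + 1 / Real.pi * I5) := by
        gcongr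
      refine le_trans ?_ c4
      have e6 : qc * (dN * (X / (qc ^ 2 * qc)) + 1 / Real.pi * (W2 - 11 * ρ * T3)) =
          X / qc ^ 2 * dN + qc * (1 / Real.pi * W2) - qc * ρ * T3 * (1 / Real.pi * 11) := by
        field_simp
        ring
      rw [e6]
      have c5 : qc * ρ * T3 * (1 / Real.pi * 11) ≤ 10 / 7 * q * ρ * T3 * 4 := by gcongr
      linarith
    refine le_trans ?_ c1
    have c6 : X / qc ^ 2 * (qc * G) - X / qc ^ 2 * dN ≤ 5 / 4 * |dN - qc * G| / ρ := by
      have c7 : X / qc ^ 2 * (qc * G) - X / qc ^ 2 * dN = X / qc ^ 2 * -(dN - qc * G) := by ring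
      rw [c7]
      calc X / qc ^ 2 * -(dN - qc * G) ≤ X / qc ^ 2 * |dN - qc * G| := by
            gcongr
            exact neg_le_abs _
        _ ≤ 5 / 4 / ρ * |dN - qc * G| := by gcongr
        _ = 5 / 4 * |dN - qc * G| / ρ := by ring
    linarith

end

end Pool.Agent.Helper95.CV.Q10
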